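import Mathlib

/-!
# A Jacobian criterion for algebraic independence

* `algebraicIndependent_of_jacobian`: polynomials with nonzero Jacobian determinant at a point are
  algebraically independent (characteristic zero).
* `exists_algebraicIndependent_of_injective`: from a family `c j` of polynomials whose differential
  at a point is injective one obtains linear combinations, as many as there are variables, that
  are algebraically independent.
-/

namespace Pool.Agent.H94

open MvPolynomial

variable {k : Type*} [Field k]

lemma pderiv_aeval {ι σ : Type*} [Fintype ι] (g : ι → MvPolynomial σ k) (j : σ)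
    (P : MvPolynomial ι k) :
    pderiv j (aeval g P) = ∑ i, aeval g (pderiv i P) * pderiv j (g i) := by
  classical
  induction P using MvPolynomial.induction_on with
  | C a => simp [MvPolynomial.algebraMap_eq]
  | add p q hp hq =>
    rw [map_add, map_add, hp, hq]
    simp_rw [map_add, add_mul]
    rw [Finset.sum_add_distrib]
  | mul_X p i hp =>
    rw [map_mul, aeval_X, pderiv_mul, hp]
    have : ∀ i', aeval g (pderiv i' (p * X i)) * pderiv j (g i') =
        aeval g (pderiv i' p) * pderiv j (g i') * g i +
          (if i' = i then aeval g p * pderiv j (g i) else 0) := by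
      intro i'
      rw [pderiv_mul, map_add, map_mul, map_mul, aeval_X, pderiv_X, add_mul]
      congr 1
      · ring
      · by_cases h : i' = i
        · subst h; simp
        · rw [Pi.single_eq_of_ne (Ne.symm h)]; simp [h]
    simp_rw [this]
    rw [Finset.sum_add_distrib, Finset.sum_mul]
    simp

lemma eq_C_of_pderiv_eq_zero [CharZero k] {ι : Type*} (P : MvPolynomial ι k)
    (h : ∀ i, pderiv i P = 0) : P = C (coeff 0 P) := by
  classical
  ext m
  rw [coeff_C]
  by_cases hm : m = 0
  · subst hm; simp
  · rw [if_neg (Ne.symm hm)]
    obtain ⟨i, hi⟩ : ∃ i, m i ≠ 0 := by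
      by_contra hcon
      push Not at hcon
      exact hm (Finsupp.ext hcon)
    have h1 := congrArg (coeff (m - Finsupp.single i 1)) (h i)
    rw [coeff_pderiv, coeff_zero] at h1
    have h2 : m - Finsupp.single i 1 + Finsupp.single i 1 = m :=
      Finsupp.sub_add_single_one_cancel hi
    rw [h2] at h1
    rcases mul_eq_zero.1 h1 with h1 | h1
    · exact h1
    · exfalso
      have : ((((m - Finsupp.single i 1 : ι →₀ ℕ)) i + 1 : ℕ) : k) = 0 := by push_cast; exact h1
      exact Nat.cast_ne_zero.2 (Nat.succ_ne_zero _) this

lemma totalDegree_pderiv_lt {ι : Type*} (P : MvPolynomial ι k) (i : ι) (h : pderiv i P ≠ 0) :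
    (pderiv i P).totalDegree < P.totalDegree := by
  classical
  obtain ⟨m, hm, hmd⟩ := Finset.exists_mem_eq_sup (pderiv i P).support
    (support_nonempty.2 h) (fun s => s.sum fun _ e => e)
  rw [mem_support_iff, coeff_pderiv] at hm
  have h1 : coeff (m + Finsupp.single i 1) P ≠ 0 := left_ne_zero_of_mul hm
  have h2 := le_totalDegree (mem_support_iff.2 h1)
  have h3 : (m + Finsupp.single i 1).degree = m.degree + 1 := by
    rw [map_add, Finsupp.degree_single]
  have h4 : (m + Finsupp.single i 1).sum (fun _ e => e) = (m + Finsupp.single i 1).degree := rfl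
  have h5 : m.sum (fun _ e => e) = m.degree := rfl
  have h6 : (pderiv i P).totalDegree = m.degree := hmd
  rw [h4, h3] at h2
  omega

theorem algebraicIndependent_of_jacobian [CharZero k] {m : Type*} [Fintype m] [DecidableEq m]
    (g : m → MvPolynomial m k) (a : m → k)
    (h : (Matrix.of fun i j => eval a (pderiv j (g i))).det ≠ 0) :
    AlgebraicIndependent k g := by
  rw [algebraicIndependent_iff]
  have hdet : (Matrix.of fun i j => pderiv j (g i)).det ≠ 0 := by
    intro h0
    apply h
    have := congrArg (eval a) h0
    rw [RingHom.map_det, map_zero] at this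
    exact this
  have key : ∀ n : ℕ, ∀ P : MvPolynomial m k, P.totalDegree ≤ n → aeval g P = 0 → P = 0 := by
    intro n
    induction n with
    | zero =>
      intro P hP h0
      rw [Nat.le_zero, totalDegree_eq_zero_iff_eq_C] at hP
      rw [hP, aeval_C, MvPolynomial.algebraMap_eq] at h0
      rw [hP, h0]
    | succ n ih =>
      intro P hP h0
      have hz : ∀ i, aeval g (pderiv i P) = 0 := by
        have h1 : Matrix.vecMul (fun i => aeval g (pderiv i P))
            (Matrix.of fun i j => pderiv j (g i)) = 0 := by
          funext j
          have h2 := pderiv_aeval g j P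
          rw [h0, map_zero] at h2
          simp only [Matrix.vecMul, dotProduct, Matrix.of_apply, Pi.zero_apply]
          exact h2.symm
        intro i
        exact congrFun (Matrix.eq_zero_of_vecMul_eq_zero hdet h1) i
      have hz' : ∀ i, pderiv i P = 0 := by
        intro i
        by_contra hne
        exact hne (ih _ (by have := totalDegree_pderiv_lt P i hne; omega) (hz i))
      have hC := eq_C_of_pderiv_eq_zero P hz'
      rw [hC, aeval_C, MvPolynomial.algebraMap_eq] at h0
      rw [hC, h0]
  intro P hP
  exact key _ P le_rfl hP

/-- If the differential at `a` of the family `c j` (`j : J`) of polynomials in finitely many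
variables is injective, then there are linear combinations `p s` of the coordinates, indexed by
the variables, whose composites with `c` are algebraically independent. -/
theorem exists_algebraicIndependent_of_injective [CharZero k] {J m : Type*} [Fintype m]
    (c : J → MvPolynomial m k) (a : m → k)
    (h : ∀ v : m → k, (∀ j, ∑ s, v s * eval a (pderiv s (c j)) = 0) → v = 0) :
    ∃ p : m → MvPolynomial J k, AlgebraicIndependent k (fun s => aeval c (p s)) := by
  classical
  -- the rows span everything
  have hspan : Submodule.span k (Set.range fun (j : J) (s : m) => eval a (pderiv s (c j))) = ⊤ := by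
    by_contra hne
    obtain ⟨f, hf, hf'⟩ := Submodule.exists_le_ker_of_lt_top _ (lt_top_iff_ne_top.2 hne)
    apply hf
    have hv : (fun s => f (Pi.single s 1)) = (0 : m → k) := by
      apply h
      intro j
      have h1 : (fun s => eval a (pderiv s (c j))) ∈ LinearMap.ker f :=
        hf' (Submodule.subset_span ⟨j, rfl⟩)
      rw [LinearMap.mem_ker, LinearMap.pi_apply_eq_sum_univ] at h1
      rw [← h1]
      refine Finset.sum_congr rfl fun s _ => ?_
      rw [smul_eq_mul, mul_comm]
      congr 2
      funext s'
      simp [Pi.single_apply, eq_comm]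
    apply LinearMap.ext
    intro x
    rw [LinearMap.pi_apply_eq_sum_univ]
    simp only [LinearMap.zero_apply]
    refine Finset.sum_eq_zero fun s _ => ?_
    have := congrFun hv s
    simp only [Pi.zero_apply] at this
    have h2 : (fun j => if s = j then (1 : k) else 0) = Pi.single s 1 := by
      funext s'
      simp [Pi.single_apply, eq_comm]
    rw [h2, this, smul_zero]
  have hex : ∀ s : m, ∃ l : J →₀ k,
      (l.sum fun j r => r • (fun s' : m => eval a (pderiv s' (c j)))) = Pi.single s 1 := by
    intro s
    have h1 : (Pi.single s 1 : m → k) ∈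
        Submodule.span k (Set.range fun (j : J) (s : m) => eval a (pderiv s (c j))) := by
      rw [hspan]; trivial
    exact Finsupp.mem_span_range_iff_exists_finsupp.1 h1
  choose l hl using hex
  refine ⟨fun s => (l s).sum fun j r => C r * X j, ?_⟩
  apply algebraicIndependent_of_jacobian _ a
  have hJ : (Matrix.of fun i j => eval a (pderiv j
      (aeval c ((l i).sum fun j r => C r * X j)))) = (1 : Matrix m m k) := by
    ext i j
    rw [Matrix.of_apply]
    have h1 := congrFun (hl i) j
    rw [Finsupp.sum, Finset.sum_apply] at h1
    rw [Finsupp.sum, map_sum, map_sum, map_sum, Matrix.one_apply]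
    have h2 : (Pi.single i 1 : m → k) j = if i = j then 1 else 0 := by
      simp [Pi.single_apply, eq_comm]
    rw [← h2, ← h1]
    refine Finset.sum_congr rfl fun x _ => ?_
    rw [map_mul, aeval_C, aeval_X, MvPolynomial.algebraMap_eq, pderiv_C_mul, map_mul, eval_C]
    rfl
  rw [hJ, Matrix.det_one]
  exact one_ne_zero

/-- Evaluation of a polynomial at `a + ε v` in the dual numbers. -/
lemma aeval_dual {σ : Type*} [Fintype σ] (a v : σ → k) (c : MvPolynomial σ k) :
    aeval (fun s => (TrivSqZeroExt.inl (a s) + TrivSqZeroExt.inr (v s) : DualNumber k)) c =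
      TrivSqZeroExt.inl (eval a c) +
        TrivSqZeroExt.inr (∑ s, v s * eval a (pderiv s c)) := by
  classical
  induction c using MvPolynomial.induction_on with
  | C r =>
    simp [TrivSqZeroExt.algebraMap_eq_inl]
  | add p q hp hq =>
    rw [map_add, hp, hq]
    ext <;> simp [mul_add, Finset.sum_add_distrib]
  | mul_X p i hp =>
    rw [map_mul, hp, aeval_X]
    ext
    · simp
    · simp only [pderiv_mul, pderiv_X, map_add, map_mul, eval_X, mul_add,
        Finset.sum_add_distrib, TrivSqZeroExt.snd_mul, TrivSqZeroExt.snd_add,
        TrivSqZeroExt.fst_add, TrivSqZeroExt.fst_inl, TrivSqZeroExt.fst_inr,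
        TrivSqZeroExt.snd_inl, TrivSqZeroExt.snd_inr, smul_eq_mul, zero_add, add_zero,
        MulOpposite.smul_eq_mul_unop, MulOpposite.unop_op]
      have h1 : ∑ s, v s * (eval a p * eval a (Pi.single (M := fun _ => MvPolynomial σ k) s 1 i)) =
          eval a p * v i := by
        rw [Finset.sum_eq_single i]
        · simp [mul_comm]
        · intro b _ hb
          rw [Pi.single_eq_of_ne (Ne.symm hb)]; simp
        · simp
      rw [h1, Finset.sum_mul, mul_zero, mul_zero, zero_add, add_zero]
      congr 1
      refine Finset.sum_congr rfl fun s _ => ?_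
      ring

end Pool.Agent.H94
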