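import Pool.Agent.H94.ShafBasic
import Pool.Agent.H94.Jac

/-!
# The conjugation action on tuples of forms
-/

namespace Pool.Agent.H94.Shaf

open MvPolynomial Topology

variable {N d : ℕ}

section CommRing

variable {R S : Type*} [CommRing R] [CommRing S]

/-- tuples -/
abbrev Tup (N : ℕ) (R : Type*) [CommRing R] := Fin (N + 1) → MvPolynomial (Fin (N + 1)) R

/-- square matrices -/
abbrev Mat (N : ℕ) (R : Type*) := Matrix (Fin (N + 1)) (Fin (N + 1)) R

lemma subst_eq (A : Mat N R) (p : MvPolynomial (Fin (N + 1)) R) :
    subst A p = bind₁ (fun l => ∑ m, C (A l m) * X m) p := rfl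

lemma subst_add (A : Mat N R) (p q : MvPolynomial (Fin (N + 1)) R) :
    subst A (p + q) = subst A p + subst A q := map_add _ _ _

lemma subst_sum {ι : Type*} (A : Mat N R) (s : Finset ι) (p : ι → MvPolynomial (Fin (N + 1)) R) :
    subst A (∑ i ∈ s, p i) = ∑ i ∈ s, subst A (p i) := map_sum _ _ _

lemma subst_mul (A : Mat N R) (p q : MvPolynomial (Fin (N + 1)) R) :
    subst A (p * q) = subst A p * subst A q := map_mul _ _ _

lemma subst_C (A : Mat N R) (r : R) : subst A (C r) = C r := by
  simp [subst]

lemma subst_X (A : Mat N R) (l : Fin (N + 1)) : subst A (X l) = ∑ m, C (A l m) * X m := by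
  simp [subst]

lemma subst_subst (A B : Mat N R) (p : MvPolynomial (Fin (N + 1)) R) :
    subst B (subst A p) = subst (A * B) p := by
  simp only [subst]
  rw [bind₁_bind₁]
  congr 1
  congr 1
  funext l
  rw [map_sum]
  have : ∀ m, bind₁ (fun l => ∑ m, C (B l m) * X m) (C (A l m) * X m) =
      ∑ m', C (A l m * B m m') * X m' := by
    intro m
    rw [map_mul, bind₁_C_right, bind₁_X_right, Finset.mul_sum]
    refine Finset.sum_congr rfl fun m' _ => ?_
    rw [C_mul, mul_assoc]
  simp_rw [this]
  rw [Finset.sum_comm]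
  refine Finset.sum_congr rfl fun m' _ => ?_
  rw [Matrix.mul_apply, map_sum, Finset.sum_mul]

lemma subst_one (p : MvPolynomial (Fin (N + 1)) R) : subst (1 : Mat N R) p = p := by
  simp only [subst]
  have : (fun l => ∑ m, C ((1 : Mat N R) l m) * X m) = (X : Fin (N + 1) → _) := by
    funext l
    rw [Finset.sum_eq_single l]
    · simp
    · intro b _ hb
      simp [Ne.symm hb]
    · simp
  rw [this, bind₁_X_left]
  rfl

lemma map_subst (φ : R →+* S) (A : Mat N R) (p : MvPolynomial (Fin (N + 1)) R) :
    (subst A p).map φ = subst (A.map φ) (p.map φ) := by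
  simp only [subst]
  rw [map_bind₁]
  congr 1
  congr 1
  funext l
  simp

lemma eval_subst (A : Mat N R) (x : Fin (N + 1) → R) (p : MvPolynomial (Fin (N + 1)) R) :
    eval x (subst A p) = eval (A.mulVec x) p := by
  simp only [subst, eval, eval₂Hom_bind₁]
  congr 1
  congr 1
  funext l
  simp [Matrix.mulVec, dotProduct]

lemma subst_isHomogeneous (A : Mat N R) {p : MvPolynomial (Fin (N + 1)) R}
    (hp : p.IsHomogeneous d) : (subst A p).IsHomogeneous d := by
  have := hp.aeval (R := R) (fun l => ∑ m, C (A l m) * X m) (n := 1) (fun l =>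
    IsHomogeneous.sum _ _ _ fun m _ => isHomogeneous_C_mul_X _ _)
  rw [one_mul] at this
  exact this

/-- the tuple `P · F(A x)` -/
noncomputable def tr (P A : Mat N R) (F : Tup N R) : Tup N R :=
  fun i => ∑ j, C (P i j) * subst A (F j)

lemma tr_tr (P Q A B : Mat N R) (F : Tup N R) :
    tr Q B (tr P A F) = tr (Q * P) (A * B) F := by
  funext i
  simp only [tr]
  have : ∀ l, C (Q i l) * subst B (∑ j, C (P l j) * subst A (F j)) =
      ∑ j, C (Q i l * P l j) * subst (A * B) (F j) := by
    intro l
    rw [subst_sum, Finset.mul_sum]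
    refine Finset.sum_congr rfl fun j _ => ?_
    rw [subst_mul, subst_C, subst_subst, C_mul, mul_assoc]
  simp_rw [this]
  rw [Finset.sum_comm]
  refine Finset.sum_congr rfl fun j _ => ?_
  rw [Matrix.mul_apply, map_sum, Finset.sum_mul]

lemma tr_one_one (F : Tup N R) : tr 1 1 F = F := by
  funext i
  simp only [tr, subst_one]
  rw [Finset.sum_eq_single i]
  · simp
  · intro b _ hb
    simp [Ne.symm hb]
  · simp

lemma map_tr (φ : R →+* S) (P A : Mat N R) (F : Tup N R) (i : Fin (N + 1)) :
    (tr P A F i).map φ = tr (P.map φ) (A.map φ) (fun i => (F i).map φ) i := by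
  simp only [tr, map_sum, map_mul, map_C, map_subst]
  rfl

lemma eval_tr (P A : Mat N R) (F : Tup N R) (x : Fin (N + 1) → R) (i : Fin (N + 1)) :
    eval x (tr P A F i) = P.mulVec (fun j => eval (A.mulVec x) (F j)) i := by
  simp only [tr, map_sum, map_mul, eval_C, eval_subst, Matrix.mulVec, dotProduct]

lemma tr_isHomogeneous (P A : Mat N R) {F : Tup N R} (hF : ∀ i, (F i).IsHomogeneous d)
    (i : Fin (N + 1)) : (tr P A F i).IsHomogeneous d := by
  refine IsHomogeneous.sum _ _ _ fun j _ => ?_
  have h1 := (isHomogeneous_C (Fin (N + 1)) (P i j)).mul (subst_isHomogeneous A (hF j))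
  simpa using h1

lemma tr_smul_left (c : R) (P A : Mat N R) (F : Tup N R) (i : Fin (N + 1)) :
    tr (c • P) A F i = C c * tr P A F i := by
  simp only [tr, Finset.mul_sum]
  refine Finset.sum_congr rfl fun j _ => ?_
  rw [Matrix.smul_apply, smul_eq_mul, C_mul, mul_assoc]

lemma subst_smul (s : R) (A : Mat N R) {p : MvPolynomial (Fin (N + 1)) R}
    (hp : p.IsHomogeneous d) : subst (s • A) p = C (s ^ d) * subst A p := by
  have h1 : subst (s • A) p = subst A (subst (s • (1 : Mat N R)) p) := by
    rw [subst_subst]
    congr 1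
    simp
  have h2 : subst (s • (1 : Mat N R)) p = C (s ^ d) * p := by
    have h3 : (fun l => ∑ m, C ((s • (1 : Mat N R)) l m) * X m) =
        fun l => C s * (X l : MvPolynomial (Fin (N + 1)) R) := by
      funext l
      rw [Finset.sum_eq_single l]
      · simp
      · intro b _ hb
        simp [Ne.symm hb]
      · simp
    simp only [subst, h3]
    ext m
    rw [coeff_C_mul]
    by_cases hm : m.degree = d
    · -- compute coefficients
      rw [p.as_sum]
      simp only [map_sum, coeff_sum, Finset.mul_sum]
      refine Finset.sum_congr rfl fun e he => ?_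
      have hed : e.degree = d := by
        by_contra hcon
        exact (mem_support_iff.1 he) (hp.coeff_eq_zero hcon)
      rw [bind₁_monomial]
      have h4 : ∏ i ∈ e.support, (C s * X i : MvPolynomial (Fin (N + 1)) R) ^ e i =
          C (s ^ d) * monomial e 1 := by
        simp_rw [mul_pow]
        rw [Finset.prod_mul_distrib]
        congr 1
        · simp_rw [← C_pow]
          rw [← map_prod, Finset.prod_pow_eq_pow_sum]
          congr 2
        · rw [monomial_eq, C_1, one_mul]; rfl
      rw [h4, coeff_C_mul, coeff_C_mul, coeff_monomial, coeff_monomial]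
      split_ifs <;> ring
    · have h6 : (bind₁ (fun l => C s * (X l : MvPolynomial (Fin (N + 1)) R)) p).IsHomogeneous
          d := by
        have := hp.aeval (R := R) (fun l => C s * (X l : MvPolynomial (Fin (N + 1)) R)) (n := 1)
          (fun l => isHomogeneous_C_mul_X _ _)
        rw [one_mul] at this
        exact this
      rw [hp.coeff_eq_zero hm, mul_zero, h6.coeff_eq_zero hm]
  rw [h1, h2, subst_mul, subst_C]

/-- `adj(A) · F(A x)` -/
noncomputable def act (A : Mat N R) (F : Tup N R) : Tup N R := tr A.adjugate A F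

lemma act_act (A B : Mat N R) (F : Tup N R) : act B (act A F) = act (A * B) F := by
  simp only [act]
  rw [tr_tr, Matrix.adjugate_mul_distrib]

lemma act_one (F : Tup N R) : act 1 F = F := by
  simp only [act, Matrix.adjugate_one, tr_one_one]

lemma map_act (φ : R →+* S) (A : Mat N R) (F : Tup N R) (i : Fin (N + 1)) :
    (act A F i).map φ = act (A.map φ) (fun i => (F i).map φ) i := by
  simp only [act]
  rw [map_tr]
  have : A.adjugate.map φ = (A.map φ).adjugate := by
    rw [← RingHom.mapMatrix_apply, ← RingHom.mapMatrix_apply, RingHom.map_adjugate]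
  rw [this]

end CommRing

end Pool.Agent.H94.Shaf
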