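import Pool.Agent.H94.ShafDefs

/-!
# Zariski closed sets, irreducibility and independence of polynomial functions
-/

namespace Pool.Agent.H94.Shaf

open MvPolynomial Topology

variable {N d : ℕ} {k : Type*} [Field k]

/-- indices of coefficients -/
abbrev Jx (N : ℕ) := Fin (N + 1) × (Fin (N + 1) →₀ ℕ)

lemma isClosed_zariski_iff {σ : Type*} (Z : Set (σ → k)) :
    IsClosed[zariski σ k] Z ↔ ∃ I : Set (MvPolynomial σ k), Z = {x | ∀ p ∈ I, eval x p = 0} := by
  rw [← @isOpen_compl_iff _ _ (zariski σ k)]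
  change Zᶜᶜ ∈ _ ↔ _
  rw [compl_compl]
  rfl

lemma isClosed_iff (C : Set (EndCone N d k)) :
    IsClosed C ↔ ∃ I : Set (MvPolynomial (Jx N) k),
      C = {F | ∀ p ∈ I, eval (coeffs F.1) p = 0} := by
  constructor
  · intro h
    obtain ⟨t, ht, rfl⟩ := (@isClosed_induced_iff _ _ (zariski _ k) _ _).1 h
    obtain ⟨I, rfl⟩ := (isClosed_zariski_iff _).1 ht
    exact ⟨I, rfl⟩
  · rintro ⟨I, rfl⟩
    exact (@isClosed_induced_iff _ _ (zariski _ k) _ _).2
      ⟨{x : Jx N → k | ∀ p ∈ I, eval x p = 0}, (isClosed_zariski_iff _).2 ⟨I, rfl⟩, rfl⟩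

/-- A point outside a closed set is separated from it by a polynomial function. -/
lemma exists_poly_of_notMem {C : Set (EndCone N d k)} (hC : IsClosed C) {z : EndCone N d k}
    (hz : z ∉ C) : ∃ p : MvPolynomial (Jx N) k,
      (∀ F ∈ C, eval (coeffs F.1) p = 0) ∧ eval (coeffs z.1) p ≠ 0 := by
  obtain ⟨I, rfl⟩ := (isClosed_iff C).1 hC
  simp only [Set.mem_ofPred_eq, not_forall] at hz
  obtain ⟨p, hp, hpz⟩ := hz
  exact ⟨p, fun F hF => hF p hp, hpz⟩

lemma isClosed_zeroLocus (p : MvPolynomial (Jx N) k) :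
    IsClosed {F : EndCone N d k | eval (coeffs F.1) p = 0} :=
  (isClosed_iff _).2 ⟨{p}, by ext; simp⟩

/-- In a preirreducible set, the product of two polynomial functions that do not vanish
identically does not vanish identically. -/
lemma exists_mul_ne {Z : Set (EndCone N d k)} (hZ : IsPreirreducible Z)
    {p q : MvPolynomial (Jx N) k} (hp : ∃ z ∈ Z, eval (coeffs z.1) p ≠ 0)
    (hq : ∃ z ∈ Z, eval (coeffs z.1) q ≠ 0) :
    ∃ z ∈ Z, eval (coeffs z.1) p ≠ 0 ∧ eval (coeffs z.1) q ≠ 0 := by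
  obtain ⟨z, hz, hz'⟩ := hZ {F | eval (coeffs F.1) p = 0}ᶜ {F | eval (coeffs F.1) q = 0}ᶜ
    (isClosed_zeroLocus p).isOpen_compl (isClosed_zeroLocus q).isOpen_compl
    (by obtain ⟨z, hz, h⟩ := hp; exact ⟨z, hz, h⟩) (by obtain ⟨z, hz, h⟩ := hq; exact ⟨z, hz, h⟩)
  exact ⟨z, hz, hz'⟩

lemma isPreirreducible_of {Z : Set (EndCone N d k)}
    (h : ∀ p q : MvPolynomial (Jx N) k, (∃ z ∈ Z, eval (coeffs z.1) p ≠ 0) →
      (∃ z ∈ Z, eval (coeffs z.1) q ≠ 0) →
      ∃ z ∈ Z, eval (coeffs z.1) p ≠ 0 ∧ eval (coeffs z.1) q ≠ 0) :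
    IsPreirreducible Z := by
  rintro U V hU hV ⟨x, hxZ, hxU⟩ ⟨y, hyZ, hyV⟩
  obtain ⟨p, hp, hpx⟩ := exists_poly_of_notMem hU.isClosed_compl (z := x) (by simpa using hxU)
  obtain ⟨q, hq, hqy⟩ := exists_poly_of_notMem hV.isClosed_compl (z := y) (by simpa using hyV)
  obtain ⟨z, hz, h1, h2⟩ := h p q ⟨x, hxZ, hpx⟩ ⟨y, hyZ, hqy⟩
  refine ⟨z, hz, ?_, ?_⟩
  · by_contra hc
    exact h1 (hp z hc)
  · by_contra hc
    exact h2 (hq z hc)

/-- The polynomial functions `p i` are algebraically independent on `Z`. -/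
def IndepOn {ι : Type*} (Z : Set (EndCone N d k)) (p : ι → MvPolynomial (Jx N) k) : Prop :=
  ∀ P : MvPolynomial ι k, (∀ z ∈ Z, eval (fun i => eval (coeffs z.1) (p i)) P = 0) → P = 0

lemma IndepOn.mono {ι : Type*} {Z Z' : Set (EndCone N d k)} {p : ι → MvPolynomial (Jx N) k}
    (h : IndepOn Z p) (hZ : Z ⊆ Z') : IndepOn Z' p :=
  fun P hP => h P fun z hz => hP z (hZ hz)

/-- Independence passes from the closure to the set. -/
lemma IndepOn.of_closure {ι : Type*} {Z : Set (EndCone N d k)} {p : ι → MvPolynomial (Jx N) k}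
    (h : IndepOn (closure Z) p) : IndepOn Z p := by
  intro P hP
  refine h P ?_
  have hcl : IsClosed {F : EndCone N d k | eval (coeffs F.1) (bind₁ p P) = 0} :=
    isClosed_zeroLocus _
  have hsub : Z ⊆ {F : EndCone N d k | eval (coeffs F.1) (bind₁ p P) = 0} := by
    intro z hz
    have := hP z hz
    simp only [Set.mem_ofPred_eq]
    rw [← this]
    simp only [eval, eval₂Hom_bind₁]
  intro z hz
  have := (closure_minimal hsub hcl) hz
  simp only [Set.mem_ofPred_eq] at this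
  rw [← this]
  simp only [eval, eval₂Hom_bind₁]

/-- A family that is independent on a closed subset can be extended by a polynomial vanishing on the
subset. -/
lemma IndepOn.extend {m : ℕ} {Z Z' : Set (EndCone N d k)} {p : Fin m → MvPolynomial (Jx N) k}
    (h : IndepOn Z p) (hsub : Z ⊆ Z') (hZ' : IsPreirreducible Z') {p₀ : MvPolynomial (Jx N) k}
    (h0 : ∀ z ∈ Z, eval (coeffs z.1) p₀ = 0) (h1 : ∃ z ∈ Z', eval (coeffs z.1) p₀ ≠ 0) :
    IndepOn Z' (Fin.cons p₀ p : Fin (m + 1) → MvPolynomial (Jx N) k) := by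
  intro P hP
  by_contra hne
  have hQ : finSuccEquiv k m P ≠ 0 := by simpa using hne
  obtain ⟨Q', hQ', hndvd⟩ :=
    Polynomial.exists_eq_pow_rootMultiplicity_mul_and_not_dvd _ hQ 0
  rw [Polynomial.dvd_iff_isRoot, Polynomial.IsRoot.def] at hndvd
  set e := Polynomial.rootMultiplicity 0 (finSuccEquiv k m P)
  set P' : MvPolynomial (Fin (m + 1)) k := (finSuccEquiv k m).symm Q' with hP'
  have hfac : P = X 0 ^ e * P' := by
    apply (finSuccEquiv k m).injective
    rw [hQ', map_mul, map_pow, finSuccEquiv_X_zero, hP', AlgEquiv.apply_symm_apply]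
    simp
  have hev : ∀ (z : EndCone N d k) (R : MvPolynomial (Fin (m + 1)) k),
      eval (fun i => eval (coeffs z.1) ((Fin.cons p₀ p : Fin (m + 1) → _) i)) R =
        eval (coeffs z.1) (bind₁ (Fin.cons p₀ p : Fin (m + 1) → _) R) := by
    intro z R
    simp only [eval, eval₂Hom_bind₁]
  -- `P'` vanishes on `Z'`
  have hvan : ∀ z ∈ Z', eval (coeffs z.1) (bind₁ (Fin.cons p₀ p : Fin (m + 1) → _) P') = 0 := by
    by_contra hcon
    push Not at hcon
    obtain ⟨z, hz, hz1, hz2⟩ := exists_mul_ne hZ' h1 hcon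
    have := hP z hz
    rw [hev, hfac, map_mul, map_mul, map_pow, map_pow, bind₁_X_right, Fin.cons_zero] at this
    exact (mul_ne_zero (pow_ne_zero _ hz1) hz2) this
  apply hndvd
  apply h
  intro z hz
  have h2 := hvan z (hsub hz)
  rw [← hev] at h2
  have h3 : (fun i => eval (coeffs z.1) ((Fin.cons p₀ p : Fin (m + 1) → _) i)) =
      (Fin.cons 0 (fun i => eval (coeffs z.1) (p i)) : Fin (m + 1) → k) := by
    funext i
    refine Fin.cases ?_ (fun j => ?_) i
    · simp [h0 z hz]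
    · simp
  rw [h3, eval_eq_eval_mv_eval', hP', AlgEquiv.apply_symm_apply] at h2
  rw [Polynomial.eval_map] at h2
  rw [← Polynomial.coeff_zero_eq_eval_zero]
  rwa [Polynomial.eval₂_at_zero] at h2

end Pool.Agent.H94.Shaf
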