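import Mathlib

/-!
# Moduli of morphisms of projective space and the Shafarevich dimension

Definitions used for problem MP_a47518_nt.

* `IsMorphismTuple d F`: the tuple `F = (F_0, ..., F_N)` of forms of degree `d` over the field `k`
  defines a morphism `[F_0 : ... : F_N]` of `P^N` of degree `d`.
* `EndCone N d k`: the set of these tuples, that is the cone over `End_d^N(k)`, with its Zariski
  topology.
* `Moduli N d k`: the quotient of `EndCone N d k` by scaling and by conjugation, with the quotient
  topology. For `k` algebraically closed this is the set of `k`-points of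
  `M_d^N = End_d^N / PGL_{N+1}` with its Zariski topology.
* `HasGoodReductionAt`, `goodClasses`, `shafDim`: good reduction, the set `Sigma(K, S)` and the
  Shafarevich dimension.
-/

namespace Pool.Agent.H94.Shaf

open MvPolynomial IsDedekindDomain NumberField

/-- The Zariski topology on `k^σ`: the closed sets are the zero loci of sets of polynomials. -/
def zariski (σ k : Type*) [Field k] : TopologicalSpace (σ → k) :=
  TopologicalSpace.ofClosed
    {Z | ∃ I : Set (MvPolynomial σ k), Z = {x | ∀ p ∈ I, eval x p = 0}}
    ⟨{1}, by ext x; simp⟩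
    (by
      intro T hT
      refine ⟨{p | ∃ Z ∈ T, ∀ x ∈ Z, eval x p = 0}, ?_⟩
      ext x
      simp only [Set.mem_sInter, Set.mem_setOf_eq]
      constructor
      · rintro hx p ⟨Z, hZ, hp⟩
        exact hp x (hx Z hZ)
      · intro hx Z hZ
        obtain ⟨I, rfl⟩ := hT hZ
        intro p hp
        exact hx p ⟨_, hZ, fun y hy => hy p hp⟩)
    (by
      rintro _ ⟨I, rfl⟩ _ ⟨J, rfl⟩
      refine ⟨{r | ∃ p ∈ I, ∃ q ∈ J, r = p * q}, ?_⟩
      ext x
      simp only [Set.mem_union, Set.mem_setOf_eq]
      constructor
      · rintro (h | h) r ⟨p, hp, q, hq, rfl⟩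
        · simp [h p hp]
        · simp [h q hq]
      · intro h
        by_contra hcon
        push_neg at hcon
        obtain ⟨⟨p, hp, hp0⟩, ⟨q, hq, hq0⟩⟩ := hcon
        have := h _ ⟨p, hp, q, hq, rfl⟩
        rw [map_mul] at this
        exact (mul_ne_zero hp0 hq0) this)

variable {N : ℕ}

/-- The tuple `F` consists of `N + 1` forms of degree `d` in `N + 1` variables over the field `k`
whose only common zero over an algebraic closure of `k` is the origin: `[F_0 : ... : F_N]` is a
morphism `P^N → P^N` of degree `d` defined over `k`. -/
def IsMorphismTuple {k : Type*} [Field k] (d : ℕ)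
    (F : Fin (N + 1) → MvPolynomial (Fin (N + 1)) k) : Prop :=
  (∀ i, (F i).IsHomogeneous d) ∧
    ∀ x : Fin (N + 1) → AlgebraicClosure k, (∀ i, aeval x (F i) = 0) → x = 0

/-- The tuples of forms defining a morphism of `P^N` of degree `d` over `k`
(the cone over `End_d^N(k)`). -/
def EndCone (N d : ℕ) (k : Type*) [Field k] : Type _ :=
  {F : Fin (N + 1) → MvPolynomial (Fin (N + 1)) k // IsMorphismTuple d F}

/-- The vector of all coefficients of a tuple of polynomials. -/
def coeffs {k : Type*} [CommRing k] (F : Fin (N + 1) → MvPolynomial (Fin (N + 1)) k) :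
    Fin (N + 1) × (Fin (N + 1) →₀ ℕ) → k :=
  fun p => coeff p.2 (F p.1)

/-- The Zariski topology on tuples of forms: closed sets are given by polynomial equations in the
coefficients. -/
instance (N d : ℕ) (k : Type*) [Field k] : TopologicalSpace (EndCone N d k) :=
  TopologicalSpace.induced (fun F => coeffs F.1) (zariski _ k)

/-- `p(A x)`: substitute the linear forms `∑ m, A l m * x_m` for the variables `x_l`. -/
noncomputable def subst {k : Type*} [CommRing k] (A : Matrix (Fin (N + 1)) (Fin (N + 1)) k)
    (p : MvPolynomial (Fin (N + 1)) k) : MvPolynomial (Fin (N + 1)) k :=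
  bind₁ (fun l => ∑ m, C (A l m) * X m) p

/-- `c · A⁻¹ ∘ F ∘ A`: the conjugate of the tuple `F` by `A`, rescaled by `c`. -/
noncomputable def conj {k : Type*} [Field k] (c : kˣ) (A : GL (Fin (N + 1)) k)
    (F : Fin (N + 1) → MvPolynomial (Fin (N + 1)) k) :
    Fin (N + 1) → MvPolynomial (Fin (N + 1)) k :=
  fun i => ∑ j, C ((c : k) * (A⁻¹).1 i j) * subst A.1 (F j)

/-- The moduli space `M_d^N(k) = End_d^N(k) / PGL_{N+1}(k)`: tuples of forms up to scaling and
conjugation. -/
def Moduli (N d : ℕ) (k : Type*) [Field k] : Type _ :=
  Quot (fun F G : EndCone N d k => ∃ (c : kˣ) (A : GL (Fin (N + 1)) k), G.1 = conj c A F.1)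

/-- `M_d^N(k)` carries the quotient of the Zariski topology. -/
instance (N d : ℕ) (k : Type*) [Field k] : TopologicalSpace (Moduli N d k) :=
  inferInstanceAs (TopologicalSpace (Quot _))

/-- The class `[F]` of a morphism. -/
def Moduli.mk {N d : ℕ} {k : Type*} [Field k] (F : EndCone N d k) : Moduli N d k :=
  Quot.mk _ F

section NumberField

variable {K : Type*} [Field K] [NumberField K]

/-- The morphism `[F_0 : ... : F_N]` over the number field `K` has good reduction at the finite
place `v`: some multiple `c F` has coefficients in the valuation ring of `v` and its reduction is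
a morphism of degree `d` over the residue field. -/
def HasGoodReductionAt (d : ℕ) (v : HeightOneSpectrum (𝓞 K))
    (F : Fin (N + 1) → MvPolynomial (Fin (N + 1)) K) : Prop :=
  ∃ (c : Kˣ) (G : Fin (N + 1) → MvPolynomial (Fin (N + 1)) (v.valuation K).valuationSubring),
    (∀ i, (G i).map (algebraMap (v.valuation K).valuationSubring K) = C (c : K) * F i) ∧
    IsMorphismTuple d
      (fun i => (G i).map (IsLocalRing.residue (v.valuation K).valuationSubring))

/-- The set `Sigma(K, S)` of the classes in `M_d^N` (over an algebraic closure of `K`) of the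
morphisms `F` defined over `K` such that for every finite place `v` outside `S` some conjugate of
`F` over `K` has good reduction at `v`. Here `S` is the set of finite places in the given set of
places; the archimedean ones play no role. -/
def goodClasses (N d : ℕ) (K : Type*) [Field K] [NumberField K]
    (S : Finset (HeightOneSpectrum (𝓞 K))) : Set (Moduli N d (AlgebraicClosure K)) :=
  {m | ∃ F : Fin (N + 1) → MvPolynomial (Fin (N + 1)) K,
    (∀ v ∉ S, ∃ A : GL (Fin (N + 1)) K, HasGoodReductionAt d v (conj 1 A F)) ∧
    ∃ hF : IsMorphismTuple d (fun i => (F i).map (algebraMap K (AlgebraicClosure K))),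
      m = Moduli.mk ⟨_, hF⟩}

end NumberField

/-- The Shafarevich dimension of `M_d^N`: the supremum over all number fields `K` and finite sets
`S` of places of the dimension of the Zariski closure of `Sigma(K, S)`. -/
noncomputable def shafDim (N d : ℕ) : WithBot ℕ∞ :=
  ⨆ (K : Type) (_ : Field K) (_ : NumberField K) (S : Finset (HeightOneSpectrum (𝓞 K))),
    topologicalKrullDim (closure (goodClasses N d K S))

end Pool.Agent.H94.Shaf
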