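import Pool.Agent.H94.ShafLower2

/-!
# Zariski density of the maps with unit resultant
-/

namespace Pool.Agent.H94.Shaf

open MvPolynomial Topology

variable {d : ℕ}

/-- Pairs of binary forms over `ℤ` whose resultant is a power of `2`, built by continued
fractions with linear partial quotients `2^n x + c`. -/
inductive IG : ℕ → MvPolynomial (Fin 2) ℤ → MvPolynomial (Fin 2) ℤ → Prop
  | base (n : ℕ) : IG 0 (C (2 ^ n)) 0
  | step {d : ℕ} {F G : MvPolynomial (Fin 2) ℤ} (n : ℕ) (c : ℤ) (h : IG d F G) :
      IG (d + 1) ((C (2 ^ n) * X 0 + C c * X 1) * F - X 1 * G) (X 1 * F)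

/-- the step of the continued fraction, as a map on pairs -/
noncomputable def stp {R : Type*} [CommRing R] (u c : R) (F : Tup 1 R) : Tup 1 R :=
  ![(C u * X 0 + C c * X 1) * F 0 - X 1 * F 1, X 1 * F 0]

/-- the pair over a ring -/
noncomputable def pr (R : Type*) [CommRing R] (F G : MvPolynomial (Fin 2) ℤ) : Tup 1 R :=
  ![F.map (Int.castRingHom R), G.map (Int.castRingHom R)]

lemma IG.isHomogeneous {F G : MvPolynomial (Fin 2) ℤ} (h : IG d F G) :
    F.IsHomogeneous d ∧ G.IsHomogeneous d := by
  induction h with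
  | base n => exact ⟨isHomogeneous_C _ _, isHomogeneous_zero _ _ _⟩
  | @step d F G n c h ih =>
    constructor
    · apply IsHomogeneous.sub
      · have := (((isHomogeneous_C_mul_X ((2 : ℤ) ^ n) (0 : Fin 2)).add
          (isHomogeneous_C_mul_X c (1 : Fin 2))).mul ih.1)
        rwa [add_comm 1 d] at this
      · have := (isHomogeneous_X ℤ (1 : Fin 2)).mul ih.2
        rwa [add_comm 1 d] at this
    · have := (isHomogeneous_X ℤ (1 : Fin 2)).mul ih.1
      rwa [add_comm 1 d] at this

lemma pr_isHomogeneous (R : Type*) [CommRing R] {F G : MvPolynomial (Fin 2) ℤ} (h : IG d F G)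
    (i : Fin 2) : (pr R F G i).IsHomogeneous d := by
  fin_cases i
  · exact h.isHomogeneous.1.map _
  · exact h.isHomogeneous.2.map _

lemma pr_step (R : Type*) [CommRing R] (F G : MvPolynomial (Fin 2) ℤ) (n : ℕ) (c : ℤ) :
    pr R ((C (2 ^ n) * X 0 + C c * X 1) * F - X 1 * G) (X 1 * F) =
      stp (2 ^ n : R) (c : R) (pr R F G) := by
  have h2 : (C (2 : R) : MvPolynomial (Fin 2) R) = 2 := map_ofNat C 2
  simp [pr, stp, h2]

lemma IG.top {L : Type*} [Field L] (h2 : (2 : L) ≠ 0) {F G : MvPolynomial (Fin 2) ℤ}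
    (h : IG d F G) : (∃ l : L, l ≠ 0 ∧ ∀ t : L, eval ![t, 0] (pr L F G 0) = l * t ^ d) ∧
      ∀ t : L, eval ![t, 0] (pr L F G 1) = 0 := by
  induction h with
  | base n =>
    refine ⟨⟨2 ^ n, pow_ne_zero _ h2, fun t => ?_⟩, fun t => ?_⟩
    · simp [pr]
    · simp [pr]
  | @step d F G n c h ih =>
    obtain ⟨⟨l, hl, h0⟩, h1⟩ := ih
    rw [pr_step]
    refine ⟨⟨2 ^ n * l, mul_ne_zero (pow_ne_zero _ h2) hl, fun t => ?_⟩, fun t => ?_⟩
    · simp only [stp, Matrix.cons_val_zero, map_sub, map_mul, map_add, eval_C, eval_X,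
        Matrix.cons_val_one]
      rw [h0 t]
      ring
    · simp [stp]

lemma IG.no_zero {L : Type*} [Field L] (h2 : (2 : L) ≠ 0) {F G : MvPolynomial (Fin 2) ℤ}
    (h : IG d F G) (x : Fin 2 → L) (h0 : eval x (pr L F G 0) = 0)
    (h1 : eval x (pr L F G 1) = 0) : x = 0 := by
  induction h with
  | base n =>
    exfalso
    simp [pr] at h0
    exact h2 h0.1
  | @step d F G n c h ih =>
    have hstep := pr_step L F G n c
    by_cases hx : x 1 = 0
    · obtain ⟨⟨l, hl, ht⟩, _⟩ := IG.top h2 (IG.step n c h)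
      have hx' : x = ![x 0, 0] := by
        funext i
        fin_cases i
        · rfl
        · exact hx
      rw [hx', ht] at h0
      have h3 : x 0 = 0 := by
        have := (mul_eq_zero.1 h0).resolve_left hl
        exact pow_eq_zero_iff (Nat.succ_ne_zero _) |>.1 this
      rw [hx', h3]
      funext i
      fin_cases i <;> rfl
    · rw [hstep] at h0 h1
      simp only [stp, Matrix.cons_val_zero, Matrix.cons_val_one, map_sub, map_mul, map_add,
        eval_C, eval_X] at h0 h1
      have hF : eval x (pr L F G 0) = 0 := (mul_eq_zero.1 h1).resolve_left hx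
      rw [hF, mul_zero, zero_sub, neg_eq_zero] at h0
      exact ih hF ((mul_eq_zero.1 h0).resolve_left hx)

lemma IG.isMorphismTuple {L : Type*} [Field L] (h2 : (2 : L) ≠ 0) {F G : MvPolynomial (Fin 2) ℤ}
    (h : IG d F G) : IsMorphismTuple d (pr L F G) := by
  refine ⟨pr_isHomogeneous L h, fun x hx => ?_⟩
  have h2' : (2 : AlgebraicClosure L) ≠ 0 := by
    intro h0
    apply h2
    apply (algebraMap L (AlgebraicClosure L)).injective
    rw [map_ofNat, map_zero, h0]
  have hmap : ∀ P : MvPolynomial (Fin 2) ℤ, aeval x (P.map (Int.castRingHom L)) =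
      eval x (P.map (Int.castRingHom (AlgebraicClosure L))) := by
    intro P
    rw [aeval_def, eval₂_map, eval_map]
    congr 1
  apply IG.no_zero h2' h x
  · have := hx 0
    simp only [pr, Matrix.cons_val_zero] at this ⊢
    rw [← hmap]; exact this
  · have := hx 1
    simp only [pr, Matrix.cons_val_one, Matrix.cons_val_zero] at this ⊢
    rw [← hmap]; exact this

section density

variable {k : Type*} [Field k]

lemma exists_poly_stp (u c : k) (p : MvPolynomial (Jx 1) k) :
    ∃ p' : MvPolynomial (Jx 1) k, ∀ F : Tup 1 k, (∀ i, (F i).IsHomogeneous d) →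
      eval (coeffs F) p' = eval (coeffs (stp u c F)) p := by
  have hex : ∀ j : Jx 1, ∃ Q : MvPolynomial (Jx 1) k,
      ∀ F : Tup 1 k, (∀ i, (F i).IsHomogeneous d) → eval (coeffs F) Q =
        coeffs (stp u c F) j := by
    intro j
    obtain ⟨Q, hQ⟩ := exists_poly_of_linear (d := d)
      ({ toFun := fun F => coeff j.2 (stp u c F j.1)
         map_add' := fun F G => by
          rw [← coeff_add]
          congr 1
          obtain ⟨i, m⟩ := j
          fin_cases i
          · simp [stp]; ring
          · simp [stp]; ring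
         map_smul' := fun r F => by
          rw [RingHom.id_apply, ← coeff_smul]
          congr 1
          obtain ⟨i, m⟩ := j
          fin_cases i
          · simp [stp, smul_sub]
          · simp [stp] } : Tup 1 k →ₗ[k] k)
    exact ⟨Q, fun F hF => hQ F hF⟩
  choose Q hQ using hex
  refine ⟨bind₁ Q p, fun F hF => ?_⟩
  have h2 : (fun j => eval (coeffs F) (Q j)) = coeffs (stp u c F) := by
    funext j
    exact hQ j F hF
  rw [← h2]
  simp only [eval, eval₂Hom_bind₁]

end density

end Pool.Agent.H94.Shaf
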