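import Pool.Agent.H94.ShafDense

/-!
# Zariski density of the maps with unit resultant, continued
-/

namespace Pool.Agent.H94.Shaf

open MvPolynomial Topology

variable {d : ℕ} {k : Type*} [Field k]

lemma infinite_two_pow [CharZero k] : (Set.range fun n : ℕ => (2 : k) ^ n).Infinite := by
  apply Set.infinite_range_of_injective
  intro m n h
  have h1 : ((2 ^ m : ℕ) : k) = ((2 ^ n : ℕ) : k) := by push_cast; exact h
  exact Nat.pow_right_injective le_rfl (Nat.cast_injective h1)

lemma infinite_int [CharZero k] : (Set.range fun n : ℤ => (n : k)).Infinite :=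
  Set.infinite_range_of_injective Int.cast_injective

lemma map_id_apply' (q : MvPolynomial (Fin 2) k) : MvPolynomial.map (RingHom.id k) q = q := by
  rw [MvPolynomial.map_id]

/-- A polynomial function that vanishes on all pairs `pr k F G` vanishes on all pairs of forms
with `G(1,0) = 0`. -/
theorem vanish_of_IG [CharZero k] : ∀ (d : ℕ) (p : MvPolynomial (Jx 1) k),
    (∀ F G, IG d F G → eval (coeffs (pr k F G)) p = 0) →
    ∀ F : Tup 1 k, (∀ i, (F i).IsHomogeneous d) → coeff (bm d d) (F 1) = 0 →
      eval (coeffs F) p = 0 := by
  intro d
  induction d with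
  | zero =>
    intro p hp F hF h1
    -- degree zero
    have hb : bm 0 0 = 0 := by simp [bm]
    have hF0 : F 0 = C (coeff 0 (F 0)) :=
      (totalDegree_eq_zero_iff_eq_C).1 (Nat.le_zero.1 (hF 0).totalDegree_le)
    have hF1 : F 1 = 0 := by
      have := (totalDegree_eq_zero_iff_eq_C).1 (Nat.le_zero.1 (hF 1).totalDegree_le)
      rw [hb] at h1
      rw [this, h1, C_0]
    set Φ : Tup 1 (MvPolynomial Unit k) := ![C (X ()), 0] with hΦ
    have hspec : ∀ a : k, spec Φ (fun _ => a) = ![C a, 0] := by
      intro a
      funext i
      fin_cases i <;> simp [spec, hΦ]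
    have hz : aeval (coeffs Φ) p = 0 := by
      refine funext_set (fun _ => Set.range fun n : ℕ => (2 : k) ^ n)
        (fun _ => infinite_two_pow) ?_
      intro x hx
      obtain ⟨n, hn⟩ := hx () trivial
      have hx' : x = fun _ => (2 : k) ^ n := by
        funext u; cases u; exact hn.symm
      rw [map_zero, eval_aeval_coeffs, hx', hspec]
      have := hp _ _ (IG.base n)
      have h3 : pr k (C (2 ^ n)) 0 = ![C ((2 : k) ^ n), 0] := by
        have h2 : (C (2 : k) : MvPolynomial (Fin 2) k) = 2 := map_ofNat C 2
        simp [pr, h2]
      rwa [h3] at this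
    have h4 : F = spec Φ (fun _ => coeff 0 (F 0)) := by
      rw [hspec]
      funext i
      fin_cases i
      · exact hF0
      · exact hF1
    rw [h4, ← eval_aeval_coeffs, hz, map_zero]
  | succ d ih =>
    intro p hp F' hF' h1'
    -- step 1: `p` vanishes on `stp (2^n) c F`
    have step1 : ∀ (n : ℕ) (c : ℤ) (F : Tup 1 k), (∀ i, (F i).IsHomogeneous d) →
        coeff (bm d d) (F 1) = 0 → eval (coeffs (stp ((2 : k) ^ n) (c : k) F)) p = 0 := by
      intro n c F hF h1
      obtain ⟨p', hp'⟩ := exists_poly_stp (d := d) ((2 : k) ^ n) (c : k) p
      rw [← hp' F hF]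
      apply ih p' _ F hF h1
      intro F₀ G₀ h₀
      rw [hp' _ (pr_isHomogeneous k h₀), ← pr_step]
      exact hp _ _ (IG.step n c h₀)
    -- step 2: `p` vanishes on `stp u c F`
    have step2 : ∀ (u c : k) (F : Tup 1 k), (∀ i, (F i).IsHomogeneous d) →
        coeff (bm d d) (F 1) = 0 → eval (coeffs (stp u c F)) p = 0 := by
      intro u c F hF h1
      set Φ : Tup 1 (MvPolynomial (Fin 2) k) := stp (X 0) (X 1) (fun i => (F i).map C) with hΦ
      have hspec : ∀ x : Fin 2 → k, spec Φ x = stp (x 0) (x 1) F := by
        intro x
        have hcomp : (eval x).comp (C : k →+* MvPolynomial (Fin 2) k) = RingHom.id k := by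
          ext; simp
        funext i
        fin_cases i <;> simp [spec, hΦ, stp, map_map, hcomp, map_id_apply']
      have hz : aeval (coeffs Φ) p = 0 := by
        refine funext_set (fun i => if i = 0 then Set.range (fun n : ℕ => (2 : k) ^ n) else
          Set.range fun n : ℤ => (n : k)) ?_ ?_
        · intro i
          fin_cases i
          · simpa using infinite_two_pow
          · simpa using infinite_int
        · intro x hx
          obtain ⟨n, hn⟩ := hx 0 trivial
          obtain ⟨c', hc⟩ := hx 1 trivial
          rw [map_zero, eval_aeval_coeffs, hspec, ← hn, ← hc]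
          exact step1 n c' F hF h1
      have h4 : stp u c F = spec Φ ![u, c] := by rw [hspec]; simp
      rw [h4, ← eval_aeval_coeffs, hz, map_zero]
    -- step 3: perturbation
    obtain ⟨F, hF, hFX⟩ : ∃ F : MvPolynomial (Fin 2) k, F.IsHomogeneous d ∧ F' 1 = X 1 * F := by
      refine ⟨∑ i ∈ Finset.range (d + 1), C (coeff (bm (d + 1) i) (F' 1)) * X 0 ^ i *
        X 1 ^ (d - i), ?_, ?_⟩
      · refine IsHomogeneous.sum _ _ _ fun i hi => ?_
        have h2 := ((isHomogeneous_X_pow (R := k) (0 : Fin 2) i).C_mul
          (coeff (bm (d + 1) i) (F' 1))).mul (isHomogeneous_X_pow (1 : Fin 2) (d - i))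
        have h3 : i + (d - i) = d := by have := Finset.mem_range.1 hi; omega
        rwa [h3] at h2
      · conv_lhs => rw [binary_eq (hF' 1)]
        rw [Finset.sum_range_succ, h1', C_0, zero_mul, zero_mul, add_zero, Finset.mul_sum]
        refine Finset.sum_congr rfl fun i hi => ?_
        have h3 : d + 1 - i = (d - i) + 1 := by have := Finset.mem_range.1 hi; omega
        rw [h3, pow_succ]
        ring
    set f := coeff (bm d d) F with hf
    set Φ : Tup 1 (MvPolynomial Unit k) :=
      ![(F' 0).map C, X 1 * (F.map C + C (X ()) * X 0 ^ d)] with hΦ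
    have hspec : ∀ t : k, spec Φ (fun _ => t) = ![F' 0, X 1 * (F + C t * X 0 ^ d)] := by
      intro t
      have hcomp : (eval (fun _ => t)).comp (C : k →+* MvPolynomial Unit k) = RingHom.id k := by
        ext; simp
      funext i
      fin_cases i <;> simp [spec, hΦ, map_map, hcomp, map_id_apply']
    have hz : aeval (coeffs Φ) p = 0 := by
      refine funext_set (fun _ => {t : k | t ≠ -f}) (fun _ => ?_) ?_
      · have : {t : k | t ≠ -f} = {-f}ᶜ := by ext; simp
        rw [this]
        exact (Set.finite_singleton _).infinite_compl
      · intro x hx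
        have hx' : x = fun _ => x () := by funext u; cases u; rfl
        set t := x () with ht
        have hne : f + t ≠ 0 := by
          intro h
          exact hx () trivial (by rw [← ht]; linear_combination h)
        rw [map_zero, eval_aeval_coeffs, hx', hspec]
        -- write it as a step
        set A : MvPolynomial (Fin 2) k := F + C t * X 0 ^ d with hA
        have hAhom : A.IsHomogeneous d := hF.add (isHomogeneous_C_mul_X_pow _ _ _)
        have hAtop : coeff (bm d d) A = f + t := by
          rw [hA, coeff_add, coeff_C_mul, coeff_X_pow, if_pos, mul_one]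
          simp [bm]
        set u := coeff (bm (d + 1) (d + 1)) (F' 0) / (f + t) with hu
        -- division with remainder: `F' 0 = (u x + c y) A - y G`
        set D : MvPolynomial (Fin 2) k := F' 0 - C u * X 0 * A with hD
        have hDhom : D.IsHomogeneous (d + 1) := by
          apply (hF' 0).sub
          have := (isHomogeneous_C_mul_X u (0 : Fin 2)).mul hAhom
          rwa [add_comm 1 d] at this
        have hDtop : coeff (bm (d + 1) (d + 1)) D = 0 := by
          have hb : bm (d + 1) (d + 1) = bm d d + Finsupp.single 0 1 := by
            ext i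
            fin_cases i <;> simp [bm]
          rw [hD, coeff_sub, mul_assoc, coeff_C_mul]
          have h5 : coeff (bm (d + 1) (d + 1)) (X 0 * A) = coeff (bm d d) A := by
            rw [hb, add_comm, coeff_X_mul]
          rw [h5, hAtop, hu]
          field_simp
          ring
        obtain ⟨H, hH, hDX⟩ : ∃ H : MvPolynomial (Fin 2) k, H.IsHomogeneous d ∧ D = X 1 * H := by
          refine ⟨∑ i ∈ Finset.range (d + 1), C (coeff (bm (d + 1) i) D) * X 0 ^ i *
            X 1 ^ (d - i), ?_, ?_⟩
          · refine IsHomogeneous.sum _ _ _ fun i hi => ?_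
            have h2 := ((isHomogeneous_X_pow (R := k) (0 : Fin 2) i).C_mul
              (coeff (bm (d + 1) i) D)).mul (isHomogeneous_X_pow (1 : Fin 2) (d - i))
            have h3 : i + (d - i) = d := by have := Finset.mem_range.1 hi; omega
            rwa [h3] at h2
          · conv_lhs => rw [binary_eq hDhom]
            rw [Finset.sum_range_succ, hDtop, C_0, zero_mul, zero_mul, add_zero, Finset.mul_sum]
            refine Finset.sum_congr rfl fun i hi => ?_
            have h3 : d + 1 - i = (d - i) + 1 := by have := Finset.mem_range.1 hi; omega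
            rw [h3, pow_succ]
            ring
        set c := coeff (bm d d) H / (f + t) with hc
        have hlast := step2 u c ![A, C c * A - H] (by
          intro i
          fin_cases i
          · exact hAhom
          · exact (hAhom.C_mul c).sub hH) (by
          simp only [Matrix.cons_val_one, Matrix.cons_val_zero, coeff_sub, coeff_C_mul, hAtop]
          rw [hc]
          field_simp
          ring)
        have h6 : stp u c ![A, C c * A - H] = ![F' 0, X 1 * A] := by
          funext i
          fin_cases i
          · simp only [stp, Matrix.cons_val_zero, Matrix.cons_val_one]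
            have : F' 0 = C u * X 0 * A + X 1 * H := by
              rw [← hDX, hD]; ring
            change (C u * X 0 + C c * X 1) * A - X 1 * (C c * A - H) = F' 0
            rw [this]
            ring
          · simp [stp]
        rw [← h6]
        exact hlast
    have h7 : F' = spec Φ (fun _ => 0) := by
      rw [hspec]
      funext i
      fin_cases i
      · rfl
      · simp [hFX]
    rw [h7, ← eval_aeval_coeffs, hz, map_zero]

end Pool.Agent.H94.Shaf
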