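import Pool.Agent.H94.ShafDense2

/-!
# The Shafarevich dimension of `M_d^1` is `2d - 2`
-/

namespace Pool.Agent.H94.Shaf

open MvPolynomial Topology IsDedekindDomain NumberField

section fixedpoint

variable {d : ℕ} {k : Type*} [Field k]

/-- a binary form of positive degree over an algebraically closed field has a nontrivial zero -/
lemma exists_zero_of_binary [IsAlgClosed k] {e : ℕ} (he : 0 < e) {p : MvPolynomial (Fin 2) k}
    (hp : p.IsHomogeneous e) : ∃ x : Fin 2 → k, x ≠ 0 ∧ eval x p = 0 := by
  by_cases h : coeff (bm e e) p = 0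
  · refine ⟨![1, 0], ?_, ?_⟩
    · intro h0
      have := congrFun h0 0
      simp at this
    · rw [eval_one_zero hp, h, mul_zero]
  · have hc : (dehom p).coeff e ≠ 0 := by rwa [coeff_dehom hp le_rfl]
    have hdeg : (dehom p).degree ≠ 0 := by
      intro h0
      have h1 := Polynomial.le_natDegree_of_ne_zero hc
      have h2 := Polynomial.natDegree_eq_of_degree_eq_some (n := 0) (by simpa using h0)
      omega
    obtain ⟨s, hs⟩ := IsAlgClosed.exists_root _ hdeg
    refine ⟨![s, 1], ?_, ?_⟩
    · intro h0
      have := congrFun h0 1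
      simp at this
    · rw [← eval_dehom]
      exact hs

/-- every class contains a map with a fixed point at infinity -/
lemma exists_rep_fixed [IsAlgClosed k] (m : Moduli 1 d k) :
    ∃ F : EndCone 1 d k, Moduli.mk F = m ∧ coeff (bm d d) (F.1 1) = 0 := by
  obtain ⟨F, rfl⟩ := Moduli.mk_surjective m
  have hhom : (X 1 * F.1 0 - X 0 * F.1 1 : MvPolynomial (Fin 2) k).IsHomogeneous (d + 1) := by
    apply IsHomogeneous.sub
    · have := (isHomogeneous_X k (1 : Fin 2)).mul (F.2.1 0)
      rwa [add_comm 1 d] at this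
    · have := (isHomogeneous_X k (0 : Fin 2)).mul (F.2.1 1)
      rwa [add_comm 1 d] at this
  obtain ⟨v, hv, hv0⟩ := exists_zero_of_binary (Nat.succ_pos d) hhom
  simp only [map_sub, map_mul, eval_X] at hv0
  obtain ⟨P, hP0, hPdet⟩ : ∃ P : Mat 1 k, (∀ i, P i 0 = v i) ∧ P.det ≠ 0 := by
    by_cases h0 : v 0 = 0
    · refine ⟨!![v 0, 1; v 1, 0], fun i => by fin_cases i <;> rfl, ?_⟩
      have h1 : v 1 ≠ 0 := by
        intro h1
        apply hv
        funext i
        fin_cases i
        · exact h0
        · exact h1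
      rw [Matrix.det_fin_two]
      simpa [h0] using h1
    · refine ⟨!![v 0, 0; v 1, 1], fun i => by fin_cases i <;> rfl, ?_⟩
      rw [Matrix.det_fin_two]
      simpa using h0
  refine ⟨F.act (Matrix.GeneralLinearGroup.mk'' P hPdet.isUnit), mk_act _ _, ?_⟩
  have h1 := eval_one_zero ((F.act (Matrix.GeneralLinearGroup.mk'' P hPdet.isUnit)).2.1 1) 1
  rw [one_pow, one_mul] at h1
  rw [← h1, EndCone.act_val]
  change eval ![1, 0] (act P F.1 1) = 0
  rw [act, eval_tr]
  have h2 : P.mulVec ![1, 0] = v := by
    funext i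
    rw [Matrix.mulVec, dotProduct, Fin.sum_univ_two]
    simp [hP0]
  rw [h2, Matrix.mulVec, dotProduct, Fin.sum_univ_two, Matrix.adjugate_fin_two]
  have h3 : P 1 0 = v 1 := hP0 1
  have h4 : P 0 0 = v 0 := hP0 0
  simp only [Matrix.of_apply, Matrix.cons_val_zero, Matrix.cons_val_one]
  rw [h3, h4]
  linear_combination - hv0

end fixedpoint

section places

variable (K : Type*) [Field K] [NumberField K]

/-- the finite set of places above `2` -/
noncomputable def placesTwo : Finset (HeightOneSpectrum (𝓞 K)) :=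
  (Ideal.finite_factors (I := Ideal.span {(2 : 𝓞 K)}) (by
    rw [Ne, Ideal.zero_eq_bot, Ideal.span_singleton_eq_bot]
    exact two_ne_zero)).toFinset

variable {K}

lemma two_notMem {v : HeightOneSpectrum (𝓞 K)} (hv : v ∉ placesTwo K) : (2 : 𝓞 K) ∉ v.asIdeal := by
  intro h
  apply hv
  rw [placesTwo, Set.Finite.mem_toFinset]
  change v.asIdeal ∣ Ideal.span {(2 : 𝓞 K)}
  rw [Ideal.dvd_span_singleton]
  exact h

lemma residue_two_ne_zero {v : HeightOneSpectrum (𝓞 K)} (hv : v ∉ placesTwo K) :
    (2 : IsLocalRing.ResidueField (v.valuation K).valuationSubring) ≠ 0 := by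
  intro h
  have h1 : (v.valuation K) (2 : K) = 1 := by
    have h2 := two_notMem hv
    have h3 : ¬ (v.valuation K) (algebraMap (𝓞 K) K 2) < 1 := by
      rw [HeightOneSpectrum.valuation_lt_one_iff_mem]
      exact h2
    have h4 : (v.valuation K) (algebraMap (𝓞 K) K 2) ≤ 1 := HeightOneSpectrum.valuation_le_one _ _
    rw [map_ofNat] at h3 h4
    exact le_antisymm h4 (not_lt.1 h3)
  have h5 : IsLocalRing.residue (v.valuation K).valuationSubring 2 = 0 := by
    rw [map_ofNat]; exact h
  rw [IsLocalRing.residue_eq_zero_iff, IsLocalRing.mem_maximalIdeal, mem_nonunits_iff] at h5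
  apply h5
  rw [isUnit_iff_exists_inv]
  have h6 : (v.valuation K) (2 : K)⁻¹ ≤ 1 := by
    rw [map_inv₀, h1, inv_one]
  refine ⟨⟨(2 : K)⁻¹, h6⟩, ?_⟩
  apply Subtype.ext
  change (2 : K) * (2 : K)⁻¹ = 1
  exact mul_inv_cancel₀ two_ne_zero

lemma hasGoodReductionAt_pr {d : ℕ} {v : HeightOneSpectrum (𝓞 K)} (hv : v ∉ placesTwo K)
    {F G : MvPolynomial (Fin 2) ℤ} (h : IG d F G) : HasGoodReductionAt d v (pr K F G) := by
  refine ⟨1, pr _ F G, ?_, ?_⟩
  · intro i
    rw [Units.val_one, C_1, one_mul]
    have hcomp : (algebraMap (v.valuation K).valuationSubring K).comp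
        (Int.castRingHom (v.valuation K).valuationSubring) = Int.castRingHom K :=
      RingHom.ext_int _ _
    fin_cases i <;> simp [pr, map_map, hcomp]
  · have h1 := h.isMorphismTuple (residue_two_ne_zero hv)
    have h2 : (fun i => (pr (v.valuation K).valuationSubring F G i).map
        (IsLocalRing.residue (v.valuation K).valuationSubring)) =
        pr (IsLocalRing.ResidueField (v.valuation K).valuationSubring) F G := by
      have hcomp : (IsLocalRing.residue (v.valuation K).valuationSubring).comp
          (Int.castRingHom (v.valuation K).valuationSubring) =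
          Int.castRingHom (IsLocalRing.ResidueField (v.valuation K).valuationSubring) :=
        RingHom.ext_int _ _
      funext i
      fin_cases i <;> simp [pr, map_map, hcomp]
    rw [h2]
    exact h1

/-- The classes with good reduction outside `2` are Zariski dense. -/
theorem dense_goodClasses (d : ℕ) :
    closure (goodClasses 1 d K (placesTwo K)) = Set.univ := by
  rw [Set.eq_univ_iff_forall]
  intro m
  obtain ⟨F, rfl, hF⟩ := exists_rep_fixed m
  have hcl : IsClosed (Moduli.mk ⁻¹' closure (goodClasses 1 d K (placesTwo K)) :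
      Set (EndCone 1 d (AlgebraicClosure K))) :=
    isClosed_closure.preimage Moduli.isQuotientMap_mk.continuous
  obtain ⟨I, hI⟩ := (isClosed_iff _).1 hcl
  have hmem : F ∈ (Moduli.mk ⁻¹' closure (goodClasses 1 d K (placesTwo K)) :
      Set (EndCone 1 d (AlgebraicClosure K))) := by
    rw [hI]
    intro p hp
    refine vanish_of_IG d p ?_ F.1 F.2.1 hF
    intro F₀ G₀ h₀
    have h2 : (2 : AlgebraicClosure K) ≠ 0 := two_ne_zero
    have hE : (⟨pr (AlgebraicClosure K) F₀ G₀, h₀.isMorphismTuple h2⟩ :
        EndCone 1 d (AlgebraicClosure K)) ∈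
        (Moduli.mk ⁻¹' closure (goodClasses 1 d K (placesTwo K)) :
          Set (EndCone 1 d (AlgebraicClosure K))) := by
      apply subset_closure
      have hmap : (fun i => (pr K F₀ G₀ i).map (algebraMap K (AlgebraicClosure K))) =
          pr (AlgebraicClosure K) F₀ G₀ := by
        have hcomp : (algebraMap K (AlgebraicClosure K)).comp (Int.castRingHom K) =
            Int.castRingHom (AlgebraicClosure K) := RingHom.ext_int _ _
        funext i
        fin_cases i <;> simp [pr, map_map, hcomp]
      refine ⟨pr K F₀ G₀, ?_, ?_, ?_⟩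
      · intro v hv
        refine ⟨1, ?_⟩
        rw [conj_one_one]
        exact hasGoodReductionAt_pr hv h₀
      · rw [hmap]
        exact h₀.isMorphismTuple h2
      · congr 1
        exact Subtype.ext hmap.symm
    rw [hI] at hE
    exact hE p hp
  exact hmem

end places

/-- The Shafarevich dimension of `M_d^1` is `2d - 2`. -/
theorem shafDim_one {d : ℕ} (hd : 2 ≤ d) : shafDim 1 d = ((2 * d - 2 : ℕ) : WithBot ℕ∞) := by
  apply le_antisymm
  · unfold shafDim
    refine iSup_le fun K => iSup_le fun _ => iSup_le fun _ => iSup_le fun S => ?_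
    exact (topologicalKrullDim_subspace_le _ _).trans (topologicalKrullDim_moduli hd).le
  · have h1 : topologicalKrullDim (closure (goodClasses 1 d ℚ (placesTwo ℚ))) =
        ((2 * d - 2 : ℕ) : WithBot ℕ∞) := by
      rw [dense_goodClasses]
      rw [← topologicalKrullDim_moduli (k := AlgebraicClosure ℚ) hd]
      exact IsHomeomorph.topologicalKrullDim_eq _ (Homeomorph.Set.univ _).isHomeomorph
    rw [← h1]
    unfold shafDim
    exact le_iSup_of_le ℚ (le_iSup_of_le inferInstance (le_iSup_of_le inferInstance
      (le_iSup_of_le (placesTwo ℚ) le_rfl)))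

end Pool.Agent.H94.Shaf
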