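import Pool.Agent.H94.ShafRes

/-!
# The dimension of `M_d^1` is at least `2d - 2`
-/

namespace Pool.Agent.H94.Shaf

open MvPolynomial Topology TrivSqZeroExt TopologicalSpace

variable {d : ℕ}

section slice

variable {ι : Type} [Fintype ι] (g : ι → Fin 2 × Fin (d - 1))

/-- The slice through `(x^d, y^d)`. -/
noncomputable def sl {R : Type*} [CommRing R] (w : ι → R) : Tup 1 R :=
  fun i => (X i) ^ d + ∑ j, if (g j).1 = i then
    C (w j) * (X 0 ^ ((g j).2 + 1 : ℕ) * X 1 ^ (d - 1 - (g j).2 : ℕ)) else 0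

lemma map_sl {R S : Type*} [CommRing R] [CommRing S] (φ : R →+* S) (w : ι → R) (i : Fin 2) :
    (sl g w i).map φ = sl g (fun j => φ (w j)) i := by
  simp only [sl, map_add, map_pow, map_X, map_sum]
  congr 1
  refine Finset.sum_congr rfl fun j _ => ?_
  split_ifs
  · simp
  · simp

lemma sl_isHomogeneous {R : Type*} [CommRing R] (w : ι → R) (i : Fin 2) :
    (sl g w i).IsHomogeneous d := by
  refine IsHomogeneous.add (isHomogeneous_X_pow i d) (IsHomogeneous.sum _ _ _ fun j _ => ?_)
  split_ifs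
  · have h1 : ((g j).2 + 1 : ℕ) + (d - 1 - (g j).2 : ℕ) = d := by
      have := (g j).2.2; omega
    have h2 := ((isHomogeneous_X_pow (R := R) (0 : Fin 2) ((g j).2 + 1 : ℕ)).mul
      (isHomogeneous_X_pow (1 : Fin 2) (d - 1 - (g j).2 : ℕ))).C_mul (w j)
    rw [h1] at h2
    exact h2
  · exact isHomogeneous_zero _ _ _

lemma eval_sl {R : Type*} [CommRing R] (w : ι → R) (i : Fin 2) (x : Fin 2 → R) :
    eval x (sl g w i) = x i ^ d + ∑ j, if (g j).1 = i then
      w j * (x 0 ^ ((g j).2 + 1 : ℕ) * x 1 ^ (d - 1 - (g j).2 : ℕ)) else 0 := by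
  simp only [sl, map_add, map_pow, eval_X, map_sum]
  congr 1
  refine Finset.sum_congr rfl fun j _ => ?_
  split_ifs
  · simp
  · simp

lemma sl_zero {R : Type*} [CommRing R] (i : Fin 2) : sl g (0 : ι → R) i = X i ^ d := by
  simp [sl]

/-- coefficient of the slice at a slice monomial -/
lemma coeff_sl {R : Type*} [CommRing R] (hg : Function.Injective g) (w : ι → R) (j : ι) :
    coeff (bm d ((g j).2 + 1)) (sl g w (g j).1) = w j := by
  classical
  have hmon : ∀ (r : R) (n : ℕ), n + 1 ≤ d →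
      (C r * (X 0 ^ (n + 1) * X 1 ^ (d - 1 - n)) : MvPolynomial (Fin 2) R) =
      monomial (bm d (n + 1)) r := by
    intro r n hn
    rw [bm, ← mul_assoc, monomial_add_single, monomial_eq]
    simp only [Finsupp.prod_single_index, pow_zero]
    rw [show d - (n + 1) = d - 1 - n by omega]
  have hX : ∀ i : Fin 2, coeff (bm d ((g j).2 + 1)) ((X i : MvPolynomial (Fin 2) R) ^ d) = 0 := by
    intro i
    rw [coeff_X_pow, if_neg]
    intro h
    have h0 := congrArg (fun f => f 0) h
    have h1 := congrArg (fun f => f 1) h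
    have h2 := (g j).2.2
    fin_cases i
    · simp [bm] at h0 h1; omega
    · simp [bm] at h0 h1
  simp only [sl, coeff_add, hX, zero_add, coeff_sum]
  rw [Finset.sum_eq_single j]
  · rw [if_pos rfl, hmon _ _ (by have := (g j).2.2; omega), coeff_monomial, if_pos rfl]
  · intro b _ hb
    split_ifs with hgb
    · rw [hmon _ _ (by have := (g b).2.2; omega), coeff_monomial, if_neg]
      intro h
      apply hb
      apply hg
      have h0 := congrArg (fun f => f 0) h
      simp [bm] at h0
      exact Prod.ext hgb (Fin.ext h0)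
    · simp
  · simp

end slice

section field

variable {k : Type*} [Field k] {ι : Type} [Fintype ι] (g : ι → Fin 2 × Fin (d - 1))

/-- the generic slice -/
noncomputable def gsl (k : Type*) [Field k] : Tup 1 (MvPolynomial ι k) := sl g X

lemma spec_gsl (w : ι → k) : spec (gsl g k) w = sl g w := by
  funext i
  simp only [spec, gsl]
  rw [map_sl]
  congr 1
  funext j
  simp

/-- the members of the slice in `EndCone` -/
def Wset (k : Type*) [Field k] : Set (EndCone 1 d k) := {F | ∃ w : ι → k, F.1 = sl g w}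

/-- the resultant of the generic slice -/
noncomputable def resg (k : Type*) [Field k] : MvPolynomial ι k :=
  Polynomial.resultant (dehom (gsl g k 0)) (dehom (gsl g k 1)) d d

lemma eval_resg (w : ι → k) : eval w (resg g k) =
    Polynomial.resultant (dehom (sl g w 0)) (dehom (sl g w 1)) d d := by
  rw [resg, ← Polynomial.resultant_map_map, ← map_dehom, ← map_dehom]
  rw [← spec_gsl]
  rfl

lemma dehom_X_pow_zero {R : Type*} [CommRing R] :
    dehom ((X 0 : MvPolynomial (Fin 2) R) ^ d) = Polynomial.X ^ d := by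
  simp [dehom]

lemma dehom_X_pow_one {R : Type*} [CommRing R] :
    dehom ((X 1 : MvPolynomial (Fin 2) R) ^ d) = 1 := by
  simp [dehom]

lemma resg_ne_zero : resg g k ≠ 0 := by
  intro h
  have h1 := eval_resg g (0 : ι → k)
  rw [h, map_zero, sl_zero, sl_zero, dehom_X_pow_zero, dehom_X_pow_one] at h1
  rw [Polynomial.resultant_one_right, Polynomial.coeff_X_pow_self, one_pow] at h1
  exact zero_ne_one h1

lemma isMorphismTuple_sl [IsAlgClosed k] (hd : 0 < d) {w : ι → k}
    (hw : eval w (resg g k) ≠ 0) : IsMorphismTuple d (sl g w) := by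
  apply isMorphismTuple_of_resultant_ne_zero hd (sl_isHomogeneous g w)
  rwa [← eval_resg]

lemma isPreirreducible_Wset [IsAlgClosed k] (hd : 0 < d) : IsPreirreducible (Wset g k) := by
  have hinf : Infinite k := IsAlgClosed.instInfinite
  refine isPreirreducible_of_family (gsl g k) (resg g k) (resg_ne_zero g) _ ?_ ?_
  · intro s hs
    exact ⟨⟨sl g s, isMorphismTuple_sl g hd hs⟩, ⟨s, rfl⟩, (spec_gsl g s).symm⟩
  · rintro z ⟨w, hw⟩
    exact ⟨w, by rw [hw, spec_gsl]⟩

lemma Wset_nonempty [IsAlgClosed k] (hd : 0 < d) : (Wset g k).Nonempty := by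
  have hinf : Infinite k := IsAlgClosed.instInfinite
  obtain ⟨s, hs⟩ := exists_eval_ne_zero (resg_ne_zero g (k := k))
  exact ⟨⟨sl g s, isMorphismTuple_sl g hd hs⟩, ⟨s, rfl⟩⟩

/-- the generic matrix in the variables of the orbit family -/
noncomputable def gm (ι k : Type*) [Field k] : Mat 1 (MvPolynomial (Fin 2 × Fin 2 ⊕ ι) k) :=
  fun i j => X (Sum.inl (i, j))

/-- the orbit family of the slice -/
noncomputable def osl (k : Type*) [Field k] :
    Tup 1 (MvPolynomial (Fin 2 × Fin 2 ⊕ ι) k) :=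
  act (gm ι k) (sl g fun j => X (Sum.inr j))

lemma spec_osl (s : Fin 2 × Fin 2 ⊕ ι → k) :
    spec (osl g k) s =
      act (show Mat 1 k from fun i j => s (Sum.inl (i, j))) (sl g fun j => s (Sum.inr j)) := by
  funext i
  simp only [spec, osl]
  rw [map_act]
  congr 1
  · ext i j
    simp [gm]
  · funext j
    rw [map_sl]
    congr 1
    funext l
    simp

/-- the saturation of the slice -/
def Zset (k : Type*) [Field k] : Set (EndCone 1 d k) := Moduli.mk ⁻¹' (Moduli.mk '' Wset g k)

lemma Zset_param [IsAlgClosed k] (hd : 0 < d) (z : EndCone 1 d k) (hz : z ∈ Zset g k) :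
    ∃ s, z.1 = spec (osl g k) s := by
  obtain ⟨w, ⟨u, hu⟩, hwz⟩ := hz
  obtain ⟨c, A, h⟩ := Moduli.mk_eq_mk.1 hwz
  obtain ⟨B, hB⟩ := exists_act_eq_conj hd w.2.1 c A
  refine ⟨Sum.elim (fun p => B.1 p.1 p.2) u, ?_⟩
  rw [spec_osl, h, ← hB, hu]
  rfl

/-- the nonvanishing polynomial for the orbit family -/
noncomputable def rosl (k : Type*) [Field k] : MvPolynomial (Fin 2 × Fin 2 ⊕ ι) k :=
  rename Sum.inl (genMat 1 k).det * rename Sum.inr (resg g k)

lemma rosl_ne_zero : rosl g k ≠ 0 := by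
  apply mul_ne_zero
  · intro h
    exact det_genMat_ne_zero ((rename_injective _ Sum.inl_injective) (by rw [h, map_zero]))
  · intro h
    exact resg_ne_zero g ((rename_injective _ Sum.inr_injective) (by rw [h, map_zero]))

lemma osl_mem [IsAlgClosed k] (hd : 0 < d) (s : Fin 2 × Fin 2 ⊕ ι → k)
    (hs : eval s (rosl g k) ≠ 0) : ∃ z ∈ Zset g k, z.1 = spec (osl g k) s := by
  rw [rosl, map_mul, eval_rename, eval_rename] at hs
  have h1 := left_ne_zero_of_mul hs
  have h2 := right_ne_zero_of_mul hs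
  rw [eval_det_genMat] at h1
  set w : EndCone 1 d k := ⟨sl g (s ∘ Sum.inr), isMorphismTuple_sl g hd h2⟩ with hw
  refine ⟨w.act (Matrix.GeneralLinearGroup.mk'' _ h1.isUnit), ?_, ?_⟩
  · exact ⟨w, ⟨_, rfl⟩, (mk_act _ _).symm⟩
  · rw [EndCone.act_val, spec_osl]
    rfl

end field

end Pool.Agent.H94.Shaf
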