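import Pool.Agent.H94.ShafLower

/-!
# The dimension of `M_d^1` is at least `2d - 2`, continued
-/

namespace Pool.Agent.H94.Shaf

open MvPolynomial Topology TrivSqZeroExt TopologicalSpace

variable {d : ℕ} {k : Type*} [Field k] {ι : Type} [Fintype ι] (g : ι → Fin 2 × Fin (d - 1))

lemma inr_pow_eq_zero (a : k) {n : ℕ} (hn : 2 ≤ n) : (inr a : DualNumber k) ^ n = 0 := by
  obtain ⟨m, rfl⟩ : ∃ m, n = m + 2 := ⟨n - 2, by omega⟩
  rw [pow_add, pow_two, inr_mul_inr, mul_zero]

/-- The slice is transversal to the orbits. -/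
lemma slice_inj [CharZero k] (hd : 2 ≤ d) (hg : Function.Injective g) {X : Mat 1 k} {w : ι → k}
    (h : act (dmat X) (sl g fun j => (inr (w j) : DualNumber k)) =
      sl g (fun _ => (0 : DualNumber k))) : X = 0 ∧ w = 0 := by
  classical
  have hd0 : (d : k) + 1 ≠ 0 := Nat.cast_add_one_ne_zero d
  have hd2 : (d : k) - 1 ≠ 0 := by
    intro h
    have h2 : (d : k) = 1 := by linear_combination h
    have : d = 1 := by exact_mod_cast h2
    omega
  have e00 : dmat X 0 0 = 1 + inr (X 0 0) := by simp [dmat]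
  have e01 : dmat X 0 1 = inr (X 0 1) := by simp [dmat]
  have e10 : dmat X 1 0 = inr (X 1 0) := by simp [dmat]
  have e11 : dmat X 1 1 = 1 + inr (X 1 1) := by simp [dmat]
  have hsum0 : ∀ (i : Fin 2) (x : Fin 2 → DualNumber k) (a : k), x 1 = inr a →
      eval x (sl g (fun j => (inr (w j) : DualNumber k)) i) = x i ^ d := by
    intro i x a hx
    rw [eval_sl]
    rw [Finset.sum_eq_zero, add_zero]
    intro j _
    split_ifs
    · obtain ⟨n, hn⟩ : ∃ n, d - 1 - ((g j).2 : ℕ) = n + 1 :=
        ⟨d - 1 - ((g j).2 : ℕ) - 1, by have := (g j).2.2; omega⟩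
      rw [hn, hx, pow_succ (inr a : DualNumber k) n]
      have : (inr (w j) : DualNumber k) * (x 0 ^ ((g j).2 + 1 : ℕ) * (inr a ^ n * inr a)) =
          (inr (w j) * inr a) * (x 0 ^ ((g j).2 + 1 : ℕ) * inr a ^ n) := by ring
      rw [this, inr_mul_inr, zero_mul]
    · rfl
  have hsum1 : ∀ (i : Fin 2) (x : Fin 2 → DualNumber k) (a : k), x 0 = inr a →
      eval x (sl g (fun j => (inr (w j) : DualNumber k)) i) = x i ^ d := by
    intro i x a hx
    rw [eval_sl]
    rw [Finset.sum_eq_zero, add_zero]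
    intro j _
    split_ifs
    · rw [pow_succ, hx]
      have : (inr (w j) : DualNumber k) * (inr a ^ ((g j).2 : ℕ) * inr a *
          x 1 ^ (d - 1 - (g j).2 : ℕ)) =
          (inr (w j) * inr a) * (inr a ^ ((g j).2 : ℕ) * x 1 ^ (d - 1 - (g j).2 : ℕ)) := by ring
      rw [this, inr_mul_inr, zero_mul]
    · rfl
  have hzero : ∀ (i : Fin 2) (x : Fin 2 → DualNumber k),
      eval x (sl g (fun _ => (0 : DualNumber k)) i) = x i ^ d := by
    intro i x
    have := sl_zero g (R := DualNumber k) i
    have h2 : sl g (fun _ => (0 : DualNumber k)) i = MvPolynomial.X i ^ d := this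
    rw [h2, map_pow, eval_X]
  have hA0 : (dmat X).mulVec ![1, 0] = ![1 + inr (X 0 0), inr (X 1 0)] := by
    funext j
    rw [Matrix.mulVec, dotProduct, Fin.sum_univ_two]
    fin_cases j
    · change dmat X 0 0 * _ + dmat X 0 1 * _ = _
      rw [e00, e01]; simp
    · change dmat X 1 0 * _ + dmat X 1 1 * _ = _
      rw [e10, e11]; simp
  have hA1 : (dmat X).mulVec ![0, 1] = ![inr (X 0 1), 1 + inr (X 1 1)] := by
    funext j
    rw [Matrix.mulVec, dotProduct, Fin.sum_univ_two]
    fin_cases j
    · change dmat X 0 0 * _ + dmat X 0 1 * _ = _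
      rw [e00, e01]; simp
    · change dmat X 1 0 * _ + dmat X 1 1 * _ = _
      rw [e10, e11]; simp
  have hadj : (dmat X).adjugate = !![1 + inr (X 1 1), -inr (X 0 1); -inr (X 1 0),
      1 + inr (X 0 0)] := by
    rw [Matrix.adjugate_fin_two, e00, e01, e10, e11]
  have ev0 : ∀ i, (dmat X).adjugate.mulVec
      (fun j => (![1 + inr (X 0 0), inr (X 1 0)] : Fin 2 → DualNumber k) j ^ d) i =
      (![1, 0] : Fin 2 → DualNumber k) i ^ d := by
    intro i
    have h2 : eval ![1, 0] (act (dmat X) (sl g fun j => (inr (w j) : DualNumber k)) i) =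
        eval ![1, 0] (sl g (fun _ => (0 : DualNumber k)) i) := by rw [h]
    rw [act, eval_tr, hA0, hzero] at h2
    rw [← h2]
    congr 1
    funext j
    rw [hsum0 j _ (X 1 0) rfl]
  have ev1 : ∀ i, (dmat X).adjugate.mulVec
      (fun j => (![inr (X 0 1), 1 + inr (X 1 1)] : Fin 2 → DualNumber k) j ^ d) i =
      (![0, 1] : Fin 2 → DualNumber k) i ^ d := by
    intro i
    have h2 : eval ![0, 1] (act (dmat X) (sl g fun j => (inr (w j) : DualNumber k)) i) =
        eval ![0, 1] (sl g (fun _ => (0 : DualNumber k)) i) := by rw [h]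
    rw [act, eval_tr, hA1, hzero] at h2
    rw [← h2]
    congr 1
    funext j
    rw [hsum1 j _ (X 0 1) rfl]
  have hd1 : d ≠ 0 := by omega
  have q0 := congrArg snd (ev0 0)
  have q1 := congrArg snd (ev0 1)
  have q2 := congrArg snd (ev1 0)
  have q3 := congrArg snd (ev1 1)
  rw [hadj] at q0 q1 q2 q3
  simp only [Matrix.mulVec, dotProduct, Matrix.of_apply, Matrix.cons_val_zero,
    Matrix.cons_val_one, one_pow, zero_pow hd1, snd_one, snd_zero] at q0 q1 q2 q3
  simp at q0 q1 q2 q3
  have hz : (0 : k) ^ d = 0 := zero_pow hd1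
  have hz' : (0 : k) ^ (d - 1) = 0 := zero_pow (by omega)
  rw [hz, mul_zero, neg_zero, add_zero] at q0
  rw [hz, hz', zero_mul, mul_zero, mul_zero, add_zero, add_zero, neg_eq_zero] at q1
  rw [hz, hz', zero_mul, mul_zero, mul_zero, zero_add, zero_add, neg_eq_zero] at q2
  rw [hz, mul_zero, neg_zero, zero_add] at q3
  have hX00 : X 0 0 = 0 := by
    have : ((d : k) + 1) * ((d : k) - 1) * X 0 0 = 0 := by
      linear_combination (d : k) * q0 - q3
    exact (mul_eq_zero.1 this).resolve_left (mul_ne_zero hd0 hd2)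
  have hX11 : X 1 1 = 0 := by
    have : ((d : k) + 1) * ((d : k) - 1) * X 1 1 = 0 := by
      linear_combination (d : k) * q3 - q0
    exact (mul_eq_zero.1 this).resolve_left (mul_ne_zero hd0 hd2)
  have hX : X = 0 := by
    ext i j
    fin_cases i <;> fin_cases j
    · exact hX00
    · exact q2
    · exact q1
    · exact hX11
  refine ⟨hX, ?_⟩
  have hdm : dmat X = 1 := by
    rw [hX]
    ext i j <;> simp [dmat, Matrix.one_apply] <;> split_ifs <;> simp
  rw [hdm, act_one] at h
  funext j
  have h3 := coeff_sl g hg (fun j => (inr (w j) : DualNumber k)) j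
  rw [h, coeff_sl g hg (fun _ => (0 : DualNumber k)) j] at h3
  have h4 := congrArg snd h3
  simpa using h4.symm

lemma exists_indepOn_Zset [IsAlgClosed k] [CharZero k] (hd : 2 ≤ d)
    (hg : Function.Injective g) :
    ∃ p : Fin 2 × Fin 2 ⊕ ι → MvPolynomial (Jx 1) k, IndepOn (Zset g k) p := by
  classical
  have hinf : Infinite k := IsAlgClosed.instInfinite
  set a : Fin 2 × Fin 2 ⊕ ι → k := Sum.elim (fun p => (1 : Mat 1 k) p.1 p.2) 0 with ha
  have hspec : spec (osl g k) a = sl g (0 : ι → k) := by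
    rw [spec_osl]
    have : (show Mat 1 k from fun i j => a (Sum.inl (i, j))) = (1 : Mat 1 k) := by
      funext i j; rfl
    rw [this, act_one]
    rfl
  have hinj : ∀ v : Fin 2 × Fin 2 ⊕ ι → k,
      (∀ j, ∑ s, v s * eval a (pderiv s (coeffs (osl g k) j)) = 0) → v = 0 := by
    intro v hv
    set X' : Mat 1 k := fun i j => v (Sum.inl (i, j)) with hX
    set ψ : MvPolynomial (Fin 2 × Fin 2 ⊕ ι) k →ₐ[k] DualNumber k :=
      aeval (fun s => inl (a s) + inr (v s)) with hψ
    have h1 : act (dmat X') (sl g fun j => (inr (v (Sum.inr j)) : DualNumber k)) =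
        sl g (fun _ => (0 : DualNumber k)) := by
      funext i
      have e1 : (osl g k i).map (ψ : _ →+* DualNumber k) =
          act (dmat X') (sl g fun j => (inr (v (Sum.inr j)) : DualNumber k)) i := by
        rw [osl, map_act]
        congr 1
        · ext i j <;> simp [gm, dmat, hψ, ha, hX]
        · funext j
          rw [map_sl]
          congr 1
          funext l
          simp [hψ, ha]
      rw [← e1]
      ext1 m
      rw [coeff_map]
      have e2 := aeval_dual a v (coeffs (osl g k) (i, m))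
      rw [hv (i, m)] at e2
      have e3 : eval a (coeffs (osl g k) (i, m)) = coeff m (sl g (0 : ι → k) i) := by
        rw [← hspec]
        simp only [coeffs, spec, coeff_map]
      rw [e3, inr_zero, add_zero] at e2
      have e4 : sl g (fun _ => (0 : DualNumber k)) i =
          (sl g (0 : ι → k) i).map (algebraMap k (DualNumber k)) := by
        rw [map_sl]
        congr 1
      rw [e4, coeff_map, algebraMap_eq_inl]
      exact e2
    obtain ⟨h2, h3⟩ := slice_inj g hd hg h1
    funext s
    rcases s with s | s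
    · exact congrFun (congrFun h2 s.1) s.2
    · exact congrFun h3 s
  obtain ⟨p, hp⟩ := exists_algebraicIndependent_of_injective (coeffs (osl g k)) a hinj
  exact ⟨p, IndepOn.of_family (osl g k) (rosl g k) (rosl_ne_zero g) _
    (fun s hs => osl_mem g (by omega) s hs) p hp⟩

/-- The closed irreducible subset of the moduli space swept out by the slice. -/
def Vset [IsAlgClosed k] (hd : 2 ≤ d) : IrreducibleCloseds (Moduli 1 d k) where
  carrier := closure (Moduli.mk '' Wset g k)
  isIrreducible' := by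
    have h1 : IsIrreducible (Wset g k) :=
      ⟨Wset_nonempty g (by omega), isPreirreducible_Wset g (by omega)⟩
    exact (h1.image _ Moduli.isQuotientMap_mk.continuous.continuousOn).closure
  isClosed' := isClosed_closure

lemma preimage_Vset [IsAlgClosed k] (hd : 2 ≤ d) :
    (Moduli.mk ⁻¹' (Vset g (k := k) hd : Set (Moduli 1 d k)) : Set (EndCone 1 d k)) =
      closure (Zset g k) :=
  isOpenMap_mk.preimage_closure_eq_closure_preimage Moduli.isQuotientMap_mk.continuous _

lemma Vset_lt [IsAlgClosed k] [CharZero k] (hd : 2 ≤ d) {ι' : Type} [Fintype ι']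
    (g' : ι' → Fin 2 × Fin (d - 1)) (hg' : Function.Injective g')
    (hsub : Wset g k ⊆ Wset g' k) (hcard : Fintype.card ι < Fintype.card ι') :
    Vset g (k := k) hd < Vset g' (k := k) hd := by
  have hle : (Vset g (k := k) hd : Set (Moduli 1 d k)) ⊆ Vset g' (k := k) hd :=
    closure_mono (Set.image_mono hsub)
  refine lt_of_le_of_ne hle ?_
  intro heq
  obtain ⟨p, hp⟩ := exists_indepOn_Zset (k := k) g' hd hg'
  have h1 : IndepOn (closure (Zset g k)) p := by
    rw [← preimage_Vset g hd, heq, preimage_Vset g' hd]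
    exact hp.mono subset_closure
  have h2 := h1.of_closure
  set n := Fintype.card (Fin 2 × Fin 2 ⊕ ι') with hn
  have e : Fin n ≃ Fin 2 × Fin 2 ⊕ ι' := (Fintype.equivFin _).symm
  have h3 := (h2.reindex e).card_le (osl g k) _ (fun z hz => Zset_param g (by omega) z hz)
  rw [hn, Fintype.card_sum, Fintype.card_sum] at h3
  omega

theorem le_topologicalKrullDim_moduli [IsAlgClosed k] [CharZero k] (hd : 2 ≤ d) :
    ((2 * d - 2 : ℕ) : WithBot ℕ∞) ≤ topologicalKrullDim (Moduli 1 d k) := by
  classical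
  unfold topologicalKrullDim
  rw [Order.le_krullDim_iff]
  have e : Fin (2 * d - 2) ≃ Fin 2 × Fin (d - 1) := Fintype.equivOfCardEq (by
    simp; omega)
  let gn : (n : Fin (2 * d - 2 + 1)) → Fin n → Fin 2 × Fin (d - 1) := fun n j =>
    e (Fin.castLE (Nat.lt_succ_iff.1 n.2) j)
  have hgn : ∀ n, Function.Injective (gn n) := fun n =>
    e.injective.comp (Fin.castLE_injective _)
  refine ⟨⟨2 * d - 2, fun n => Vset (gn n) hd, ?_⟩, rfl⟩
  intro i
  apply Vset_lt _ hd _ (hgn _)
  · rintro F ⟨w, hw⟩
    refine ⟨fun j => if h : (j : ℕ) < i then w ⟨j, by simpa using h⟩ else 0, ?_⟩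
    rw [hw]
    funext l
    simp only [sl]
    congr 1
    have h1 : (i.succ : ℕ) = (i.castSucc : ℕ) + 1 := by simp
    symm
    rw [← Fin.sum_congr' _ h1.symm, Fin.sum_univ_castSucc]
    have hlast : ∀ (c : Prop) [Decidable c] (u v : MvPolynomial (Fin 2) k), u = 0 →
        (if c then u * v else 0) = 0 := by
      intro c _ u v hu
      split_ifs
      · rw [hu, zero_mul]
      · rfl
    rw [hlast _ _ _ (by simp), add_zero]
    refine Finset.sum_congr rfl fun j _ => ?_
    have hj : ((Fin.cast h1.symm j.castSucc : Fin _) : ℕ) < i := by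
      simp
    simp only [hj, dif_pos]
    rfl
  · simp

theorem topologicalKrullDim_moduli [IsAlgClosed k] [CharZero k] (hd : 2 ≤ d) :
    topologicalKrullDim (Moduli 1 d k) = ((2 * d - 2 : ℕ) : WithBot ℕ∞) :=
  le_antisymm (topologicalKrullDim_moduli_le hd) (le_topologicalKrullDim_moduli hd)

end Pool.Agent.H94.Shaf
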