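import Pool.Agent.H94.ShafAct

/-!
# The quotient map to the moduli space
-/

namespace Pool.Agent.H94.Shaf

open MvPolynomial Topology

variable {N d : ℕ} {k : Type*} [Field k]

lemma conj_eq_tr (c : kˣ) (A : GL (Fin (N + 1)) k) (F : Tup N k) :
    conj c A F = tr ((c : k) • (A⁻¹).1) A.1 F := by
  funext i
  simp only [conj, tr, Matrix.smul_apply, smul_eq_mul]

lemma conj_conj (c c' : kˣ) (A B : GL (Fin (N + 1)) k) (F : Tup N k) :
    conj c' B (conj c A F) = conj (c * c') (A * B) F := by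
  rw [conj_eq_tr, conj_eq_tr, conj_eq_tr, tr_tr]
  congr 1
  rw [Matrix.smul_mul, Matrix.mul_smul, smul_smul, mul_inv_rev, Units.val_mul, mul_comm (c' : k),
    Units.val_mul]

lemma conj_one_one (F : Tup N k) : conj 1 1 F = F := by
  rw [conj_eq_tr]
  simp [tr_one_one]

lemma act_eq_conj (A : GL (Fin (N + 1)) k) (F : Tup N k) :
    act A.1 F = conj (Matrix.GeneralLinearGroup.det A) A F := by
  rw [conj_eq_tr, act]
  congr 1
  have h1 : ((A⁻¹ : GL (Fin (N + 1)) k) : Mat N k) = (A.1)⁻¹ := Matrix.coe_units_inv A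
  rw [show (A⁻¹).1 = (A.1)⁻¹ from h1, Matrix.inv_def, smul_smul]
  have h2 : (Matrix.GeneralLinearGroup.det A : k) = A.1.det := rfl
  rw [h2]
  have h3 : IsUnit A.1.det := (Matrix.isUnit_iff_isUnit_det A.1).1 A.isUnit
  rw [Ring.mul_inverse_cancel _ h3, one_smul]

lemma isMorphismTuple_tr {F : Tup N k} (hF : IsMorphismTuple d F) (P A : Mat N k)
    (hP : IsUnit P.det) (hA : IsUnit A.det) : IsMorphismTuple d (tr P A F) := by
  refine ⟨tr_isHomogeneous P A hF.1, fun x hx => ?_⟩
  set φ := algebraMap k (AlgebraicClosure k)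
  have h1 : ∀ i, (P.map φ).mulVec
      (fun j => eval ((A.map φ).mulVec x) ((F j).map φ)) i = 0 := by
    intro i
    rw [← eval_tr (P.map φ) (A.map φ) (fun i => (F i).map φ) x i, ← map_tr, eval_map,
      ← aeval_def]
    exact hx i
  have hPu : IsUnit (P.map φ).det := by
    have : (P.map φ).det = φ P.det := by
      rw [← RingHom.mapMatrix_apply, ← RingHom.map_det]
    rw [this]
    exact hP.map φ
  have hAu : IsUnit (A.map φ).det := by
    have : (A.map φ).det = φ A.det := by
      rw [← RingHom.mapMatrix_apply, ← RingHom.map_det]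
    rw [this]
    exact hA.map φ
  have h2 : (fun j => eval ((A.map φ).mulVec x) ((F j).map φ)) = 0 := by
    apply Matrix.eq_zero_of_mulVec_eq_zero hPu.ne_zero
    funext i
    exact h1 i
  have h3 : (A.map φ).mulVec x = 0 := by
    apply hF.2
    intro j
    have := congrFun h2 j
    simp only [Pi.zero_apply] at this
    rw [eval_map, ← aeval_def] at this
    exact this
  exact Matrix.eq_zero_of_mulVec_eq_zero hAu.ne_zero h3

lemma isMorphismTuple_conj {F : Tup N k} (hF : IsMorphismTuple d F) (c : kˣ)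
    (A : GL (Fin (N + 1)) k) : IsMorphismTuple d (conj c A F) := by
  rw [conj_eq_tr]
  apply isMorphismTuple_tr hF
  · rw [Matrix.det_smul]
    exact (c.isUnit.pow _).mul ((Matrix.isUnit_iff_isUnit_det _).1 (A⁻¹).isUnit)
  · exact (Matrix.isUnit_iff_isUnit_det _).1 A.isUnit

/-- conjugation on `EndCone` -/
noncomputable def EndCone.conj (c : kˣ) (A : GL (Fin (N + 1)) k) (F : EndCone N d k) :
    EndCone N d k :=
  ⟨Shaf.conj c A F.1, isMorphismTuple_conj F.2 c A⟩

lemma rel_equivalence : Equivalence (fun F G : EndCone N d k =>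
    ∃ (c : kˣ) (A : GL (Fin (N + 1)) k), G.1 = conj c A F.1) where
  refl F := ⟨1, 1, (conj_one_one F.1).symm⟩
  symm := by
    rintro F G ⟨c, A, h⟩
    refine ⟨c⁻¹, A⁻¹, ?_⟩
    rw [h, conj_conj, mul_inv_cancel, mul_inv_cancel, conj_one_one]
  trans := by
    rintro F G H ⟨c, A, h⟩ ⟨c', A', h'⟩
    exact ⟨c * c', A * A', by rw [h', h, conj_conj]⟩

lemma Moduli.mk_eq_mk {F G : EndCone N d k} : Moduli.mk F = Moduli.mk G ↔
    ∃ (c : kˣ) (A : GL (Fin (N + 1)) k), G.1 = Shaf.conj c A F.1 :=
  Quot.eq.trans rel_equivalence.eqvGen_iff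

lemma Moduli.mk_conj (c : kˣ) (A : GL (Fin (N + 1)) k) (F : EndCone N d k) :
    Moduli.mk (F.conj c A) = Moduli.mk F :=
  (Moduli.mk_eq_mk.2 ⟨c, A, rfl⟩).symm

lemma Moduli.mk_surjective : Function.Surjective (Moduli.mk : EndCone N d k → Moduli N d k) :=
  Quot.mk_surjective

lemma Moduli.isQuotientMap_mk :
    IsQuotientMap (Moduli.mk : EndCone N d k → Moduli N d k) := isQuotientMap_quot_mk

lemma mem_antidiag_of_coeff_ne {F : MvPolynomial (Fin (N + 1)) k} (hF : F.IsHomogeneous d)
    {m : Fin (N + 1) →₀ ℕ} (hm : coeff m F ≠ 0) :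
    m ∈ Finset.finsuppAntidiag (Finset.univ : Finset (Fin (N + 1))) d := by
  rw [Finset.mem_finsuppAntidiag]
  refine ⟨?_, Finset.subset_univ _⟩
  by_contra hcon
  apply hm
  apply hF.coeff_eq_zero
  rw [Finsupp.degree_eq_sum]
  exact hcon

lemma sum_monomial_eq {F : MvPolynomial (Fin (N + 1)) k} (hF : F.IsHomogeneous d) :
    F = ∑ m ∈ Finset.finsuppAntidiag (Finset.univ : Finset (Fin (N + 1))) d,
      coeff m F • monomial m 1 := by
  conv_lhs => rw [F.as_sum]
  apply Finset.sum_subset_zero_on_sdiff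
  · intro m hm
    exact mem_antidiag_of_coeff_ne hF (mem_support_iff.1 hm)
  · intro m hm
    have : coeff m F = 0 := by
      by_contra hcon
      exact (Finset.mem_sdiff.1 hm).2 (mem_support_iff.2 hcon)
    rw [this, zero_smul]
  · intro m _
    rw [smul_monomial, smul_eq_mul, mul_one]

/-- A linear functional is given by a polynomial in the coefficients on tuples of forms. -/
lemma exists_poly_of_linear (l : Tup N k →ₗ[k] k) : ∃ Q : MvPolynomial (Jx N) k,
    ∀ F : Tup N k, (∀ i, (F i).IsHomogeneous d) → eval (coeffs F) Q = l F := by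
  classical
  refine ⟨∑ i, ∑ m ∈ Finset.finsuppAntidiag (Finset.univ : Finset (Fin (N + 1))) d,
    C (l (Pi.single i (monomial m 1))) * X (i, m), fun F hF => ?_⟩
  have h1 : F = ∑ i, ∑ m ∈ Finset.finsuppAntidiag (Finset.univ : Finset (Fin (N + 1))) d,
      coeff m (F i) • (Pi.single i (monomial m 1) : Tup N k) := by
    funext j
    rw [Finset.sum_apply, Finset.sum_eq_single j]
    · rw [Finset.sum_apply]
      conv_lhs => rw [sum_monomial_eq (hF j)]
      refine Finset.sum_congr rfl fun m _ => ?_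
      simp
    · intro b _ hb
      rw [Finset.sum_apply]
      refine Finset.sum_eq_zero fun m _ => ?_
      simp [Pi.single_eq_of_ne (Ne.symm hb)]
    · simp
  conv_rhs => rw [h1]
  simp only [map_sum, map_mul, eval_C, eval_X, map_smul, smul_eq_mul, coeffs]
  refine Finset.sum_congr rfl fun i _ => Finset.sum_congr rfl fun m _ => ?_
  rw [mul_comm]

/-- a linear self-map of tuples given by `tr` -/
lemma tr_add (P A : Mat N k) (F G : Tup N k) : tr P A (F + G) = tr P A F + tr P A G := by
  funext i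
  simp only [tr, Pi.add_apply, subst_add, mul_add, Finset.sum_add_distrib]

lemma tr_smul (P A : Mat N k) (c : k) (F : Tup N k) : tr P A (c • F) = c • tr P A F := by
  funext i
  simp only [tr, Pi.smul_apply, Finset.smul_sum, smul_eq_C_mul, subst_mul, subst_C]
  refine Finset.sum_congr rfl fun j _ => ?_
  ring

lemma continuous_conj (c : kˣ) (A : GL (Fin (N + 1)) k) :
    Continuous (EndCone.conj c A : EndCone N d k → EndCone N d k) := by
  rw [continuous_iff_isClosed]
  intro C hC
  obtain ⟨I, rfl⟩ := (isClosed_iff C).1 hC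
  have hex : ∀ j : Jx N, ∃ Q : MvPolynomial (Jx N) k,
      ∀ F : Tup N k, (∀ i, (F i).IsHomogeneous d) → eval (coeffs F) Q =
        coeffs (conj c A F) j := by
    intro j
    obtain ⟨Q, hQ⟩ := exists_poly_of_linear (d := d)
      ({ toFun := fun F => coeff j.2 (tr ((c : k) • (A⁻¹).1) A.1 F j.1)
         map_add' := fun F G => by rw [tr_add, Pi.add_apply, coeff_add]
         map_smul' := fun r F => by
          rw [tr_smul, Pi.smul_apply, coeff_smul, RingHom.id_apply] } : Tup N k →ₗ[k] k)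
    refine ⟨Q, fun F hF => ?_⟩
    rw [hQ F hF, conj_eq_tr]
    rfl
  choose Q hQ using hex
  rw [isClosed_iff]
  refine ⟨{r | ∃ p ∈ I, r = bind₁ Q p}, ?_⟩
  ext F
  simp only [Set.mem_preimage, Set.mem_ofPred_eq]
  have h1 : ∀ p : MvPolynomial (Jx N) k, eval (coeffs F.1) (bind₁ Q p) =
      eval (coeffs (EndCone.conj c A F).1) p := by
    intro p
    have h2 : (fun j => eval (coeffs F.1) (Q j)) = coeffs (EndCone.conj c A F).1 := by
      funext j
      exact hQ j F.1 F.2.1
    rw [← h2]
    simp only [eval, eval₂Hom_bind₁]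
  constructor
  · rintro h r ⟨p, hp, rfl⟩
    rw [h1]
    exact h p hp
  · intro h p hp
    rw [← h1]
    exact h _ ⟨p, hp, rfl⟩

lemma preimage_image_mk (U : Set (EndCone N d k)) :
    Moduli.mk ⁻¹' (Moduli.mk '' U) =
      ⋃ (c : kˣ) (A : GL (Fin (N + 1)) k), EndCone.conj c A ⁻¹' U := by
  ext F
  simp only [Set.mem_preimage, Set.mem_image, Set.mem_iUnion]
  constructor
  · rintro ⟨G, hG, h⟩
    obtain ⟨c, A, h'⟩ := Moduli.mk_eq_mk.1 h.symm
    refine ⟨c, A, ?_⟩
    have : EndCone.conj c A F = G := Subtype.ext h'.symm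
    rwa [this]
  · rintro ⟨c, A, h⟩
    exact ⟨_, h, Moduli.mk_conj c A F⟩

lemma isOpenMap_mk : IsOpenMap (Moduli.mk : EndCone N d k → Moduli N d k) := by
  intro U hU
  rw [← Moduli.isQuotientMap_mk.isOpen_preimage, preimage_image_mk]
  exact isOpen_iUnion fun c => isOpen_iUnion fun A => hU.preimage (continuous_conj c A)

end Pool.Agent.H94.Shaf
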