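import Pool.Agent.H94.ShafMod

/-!
# Polynomial families, irreducibility of orbits, independence on orbits
-/

namespace Pool.Agent.H94.Shaf

open MvPolynomial Topology

variable {N d : ℕ} {k : Type*} [Field k]

lemma exists_eval_ne_zero {σ : Type*} [Infinite k] {p : MvPolynomial σ k} (hp : p ≠ 0) :
    ∃ s, eval s p ≠ 0 := by
  by_contra hcon
  push Not at hcon
  exact hp (MvPolynomial.funext fun s => by rw [hcon s, map_zero])

/-- specialization of a family of tuples -/
noncomputable def spec {σ : Type*} (Φ : Tup N (MvPolynomial σ k)) (s : σ → k) : Tup N k :=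
  fun i => (Φ i).map (eval s)

lemma eval_aeval_coeffs {σ : Type*} (Φ : Tup N (MvPolynomial σ k)) (s : σ → k)
    (p : MvPolynomial (Jx N) k) :
    eval s (aeval (coeffs Φ) p) = eval (coeffs (spec Φ s)) p := by
  have h1 : coeffs (spec Φ s) = fun j => eval s (coeffs Φ j) := by
    funext j
    simp only [coeffs, spec, coeff_map]
  rw [h1]
  change eval s (bind₁ _ p) = _
  simp only [eval, eval₂Hom_bind₁]

lemma isPreirreducible_of_family [Infinite k] {σ : Type*} (Φ : Tup N (MvPolynomial σ k))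
    (r : MvPolynomial σ k) (hr : r ≠ 0) (Z : Set (EndCone N d k))
    (h1 : ∀ s, eval s r ≠ 0 → ∃ z ∈ Z, z.1 = spec Φ s)
    (h2 : ∀ z ∈ Z, ∃ s, z.1 = spec Φ s) : IsPreirreducible Z := by
  apply isPreirreducible_of
  rintro p q ⟨z, hz, hp⟩ ⟨w, hw, hq⟩
  obtain ⟨s, hs⟩ := h2 z hz
  obtain ⟨t, ht⟩ := h2 w hw
  rw [hs, ← eval_aeval_coeffs] at hp
  rw [ht, ← eval_aeval_coeffs] at hq
  have hp0 : aeval (coeffs Φ) p ≠ 0 := fun h => hp (by rw [h, map_zero])
  have hq0 : aeval (coeffs Φ) q ≠ 0 := fun h => hq (by rw [h, map_zero])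
  obtain ⟨u, hu⟩ := exists_eval_ne_zero (mul_ne_zero hr (mul_ne_zero hp0 hq0))
  rw [map_mul, map_mul] at hu
  obtain ⟨y, hy, hyu⟩ := h1 u (left_ne_zero_of_mul hu)
  refine ⟨y, hy, ?_, ?_⟩
  · rw [hyu, ← eval_aeval_coeffs]
    exact left_ne_zero_of_mul (right_ne_zero_of_mul hu)
  · rw [hyu, ← eval_aeval_coeffs]
    exact right_ne_zero_of_mul (right_ne_zero_of_mul hu)

lemma eval_aeval_indep {σ ι : Type*} (Φ : Tup N (MvPolynomial σ k)) (s : σ → k)
    (p : ι → MvPolynomial (Jx N) k) (P : MvPolynomial ι k) :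
    eval s (aeval (fun i => aeval (coeffs Φ) (p i)) P) =
      eval (fun i => eval (coeffs (spec Φ s)) (p i)) P := by
  change eval s (bind₁ _ P) = _
  simp only [eval, eval₂Hom_bind₁]
  congr 1
  congr 1
  funext i
  exact eval_aeval_coeffs Φ s (p i)

lemma IndepOn.of_family [Infinite k] {σ ι : Type*} (Φ : Tup N (MvPolynomial σ k))
    (r : MvPolynomial σ k) (hr : r ≠ 0) (Z : Set (EndCone N d k))
    (h1 : ∀ s, eval s r ≠ 0 → ∃ z ∈ Z, z.1 = spec Φ s)
    (p : ι → MvPolynomial (Jx N) k)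
    (hp : AlgebraicIndependent k (fun i => aeval (coeffs Φ) (p i))) : IndepOn Z p := by
  intro P hP
  rw [algebraicIndependent_iff] at hp
  apply hp
  have h3 : r * aeval (fun i => aeval (coeffs Φ) (p i)) P = 0 := by
    apply MvPolynomial.funext
    intro s
    rw [map_mul, map_zero, eval_aeval_indep]
    by_cases hs : eval s r = 0
    · rw [hs, zero_mul]
    · obtain ⟨z, hz, hzs⟩ := h1 s hs
      rw [← hzs, hP z hz, mul_zero]
  exact (mul_eq_zero.1 h3).resolve_left hr

lemma IndepOn.card_le {σ : Type} [Fintype σ] {m : ℕ} (Φ : Tup N (MvPolynomial σ k))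
    (Z : Set (EndCone N d k)) (h2 : ∀ z ∈ Z, ∃ s, z.1 = spec Φ s)
    (p : Fin m → MvPolynomial (Jx N) k) (hp : IndepOn Z p) : m ≤ Fintype.card σ := by
  have hai : AlgebraicIndependent k (fun i => aeval (coeffs Φ) (p i)) := by
    rw [algebraicIndependent_iff]
    intro P hP
    apply hp
    intro z hz
    obtain ⟨s, hs⟩ := h2 z hz
    rw [hs, ← eval_aeval_indep, hP, map_zero]
  have h3 := hai.lift_cardinalMk_le_trdeg
  rw [MvPolynomial.trdeg_of_isDomain] at h3
  simpa using h3

/-- the generic matrix -/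
noncomputable def genMat (N : ℕ) (k : Type*) [Field k] :
    Mat N (MvPolynomial (Fin (N + 1) × Fin (N + 1)) k) := fun i j => X (i, j)

lemma spec_act_genMat (F : Tup N k) (s : Fin (N + 1) × Fin (N + 1) → k) :
    spec (act (genMat N k) (fun i => (F i).map C)) s = act (fun i j => s (i, j)) F := by
  funext i
  simp only [spec]
  rw [map_act]
  congr 1
  · ext i j
    simp [genMat]
  · funext j
    rw [map_map]
    have : (eval s).comp (C : k →+* MvPolynomial (Fin (N + 1) × Fin (N + 1)) k) =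
        RingHom.id k := by
      ext; simp
    rw [this, MvPolynomial.map_id]

lemma det_genMat_ne_zero : (genMat N k).det ≠ 0 := by
  intro h
  have h1 := congrArg (eval (fun p : Fin (N + 1) × Fin (N + 1) =>
    (1 : Mat N k) p.1 p.2)) h
  rw [RingHom.map_det, map_zero] at h1
  have h2 : (eval (fun p : Fin (N + 1) × Fin (N + 1) => (1 : Mat N k) p.1 p.2)).mapMatrix
      (genMat N k) = 1 := by
    ext i j
    simp [genMat]
  rw [h2, Matrix.det_one] at h1
  exact one_ne_zero h1

lemma eval_det_genMat (s : Fin (N + 1) × Fin (N + 1) → k) :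
    eval s (genMat N k).det = (Matrix.of fun i j => s (i, j)).det := by
  rw [RingHom.map_det]
  congr 1
  ext i j
  simp [genMat]

/-- every conjugate is of the form `act A F` (over an algebraically closed field) -/
lemma exists_act_eq_conj [IsAlgClosed k] (hd : 0 < d) {F : Tup N k}
    (hF : ∀ i, (F i).IsHomogeneous d) (c : kˣ) (A : GL (Fin (N + 1)) k) :
    ∃ B : GL (Fin (N + 1)) k, act B.1 F = conj c A F := by
  obtain ⟨s, hs⟩ := IsAlgClosed.exists_pow_nat_eq
    ((c : k) * (A⁻¹).1.det) (n := N + d) (by omega)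
  have hne : (c : k) * (A⁻¹).1.det ≠ 0 :=
    mul_ne_zero c.ne_zero ((Matrix.isUnit_iff_isUnit_det _).1 (A⁻¹).isUnit).ne_zero
  have hs0 : s ≠ 0 := by
    rintro rfl
    rw [zero_pow (by omega)] at hs
    exact hne hs.symm
  have hdet : IsUnit (s • A.1).det := by
    rw [Matrix.det_smul]
    exact ((Ne.isUnit hs0).pow _).mul ((Matrix.isUnit_iff_isUnit_det _).1 A.isUnit)
  refine ⟨Matrix.GeneralLinearGroup.mk'' _ hdet, ?_⟩
  have hA : (A⁻¹).1.det * A.1.det = 1 := by
    rw [← Matrix.det_mul]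
    have : (A⁻¹).1 * A.1 = (1 : Mat N k) := by
      rw [← Units.val_mul, inv_mul_cancel]; rfl
    rw [this, Matrix.det_one]
  rw [conj_eq_tr]
  change act (s • A.1) F = _
  funext i
  rw [tr_smul_left]
  have h1 : act (s • A.1) F i = C (s ^ (N + d)) * act A.1 F i := by
    simp only [act, tr, Matrix.adjugate_smul, Finset.mul_sum]
    refine Finset.sum_congr rfl fun j _ => ?_
    rw [subst_smul s A.1 (hF j), Matrix.smul_apply, smul_eq_mul, Fintype.card_fin,
      Nat.add_sub_cancel, pow_add, C_mul, C_mul]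
    ring
  rw [h1, hs, act_eq_conj, conj_eq_tr, tr_smul_left, C_mul]
  have h2 : (Matrix.GeneralLinearGroup.det A : k) = A.1.det := rfl
  rw [h2]
  have h3 : (C (A⁻¹).1.det * C A.1.det : MvPolynomial (Fin (N + 1)) k) = 1 := by
    rw [← C_mul, hA, C_1]
  calc C (c : k) * C (A⁻¹).1.det * (C A.1.det * tr (A⁻¹).1 A.1 F i)
      = C (c : k) * (C (A⁻¹).1.det * C A.1.det) * tr (A⁻¹).1 A.1 F i := by ring
    _ = _ := by rw [h3, mul_one]

/-- `act A F` as an element of `EndCone` -/
noncomputable def EndCone.act (A : GL (Fin (N + 1)) k) (F : EndCone N d k) : EndCone N d k :=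
  F.conj (Matrix.GeneralLinearGroup.det A) A

lemma EndCone.act_val (A : GL (Fin (N + 1)) k) (F : EndCone N d k) :
    (F.act A).1 = Shaf.act A.1 F.1 := (act_eq_conj A F.1).symm

lemma mk_act (A : GL (Fin (N + 1)) k) (F : EndCone N d k) :
    Moduli.mk (F.act A) = Moduli.mk F := Moduli.mk_conj _ _ _

lemma isPreirreducible_fiber [IsAlgClosed k] (hd : 0 < d) (m : Moduli N d k) :
    IsPreirreducible (Moduli.mk ⁻¹' {m} : Set (EndCone N d k)) := by
  have : Infinite k := IsAlgClosed.instInfinite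
  obtain ⟨F, rfl⟩ := Moduli.mk_surjective m
  refine isPreirreducible_of_family (act (genMat N k) (fun i => (F.1 i).map C))
    (genMat N k).det det_genMat_ne_zero _ ?_ ?_
  · intro s hs
    rw [eval_det_genMat] at hs
    refine ⟨F.act (Matrix.GeneralLinearGroup.mk'' (Matrix.of fun i j => s (i, j)) hs.isUnit),
      mk_act _ _, ?_⟩
    rw [EndCone.act_val, spec_act_genMat]
    rfl
  · intro z hz
    obtain ⟨c, A, h⟩ := Moduli.mk_eq_mk.1 (show Moduli.mk F = Moduli.mk z from hz.symm)
    obtain ⟨B, hB⟩ := exists_act_eq_conj hd F.2.1 c A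
    refine ⟨fun p => B.1 p.1 p.2, ?_⟩
    rw [spec_act_genMat, h, ← hB]

end Pool.Agent.H94.Shaf
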