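import Pool.Agent.H94.ShafUpper

/-!
# Nonzero resultant implies no common zeros
-/

namespace Pool.Agent.H94.Shaf

open MvPolynomial Topology TrivSqZeroExt TopologicalSpace

variable {d : ℕ} {k : Type*} [Field k]

lemma map_dehom {R S : Type*} [CommRing R] [CommRing S] (φ : R →+* S)
    (p : MvPolynomial (Fin 2) R) : dehom (p.map φ) = (dehom p).map φ := by
  simp only [dehom]
  have h2 : ((aeval ![Polynomial.X, 1] : MvPolynomial (Fin 2) S →ₐ[S] Polynomial S) :
      MvPolynomial (Fin 2) S →+* Polynomial S).comp (MvPolynomial.map φ) =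
      (Polynomial.mapRingHom φ).comp
      ((aeval ![Polynomial.X, 1] : MvPolynomial (Fin 2) R →ₐ[R] Polynomial R) :
      MvPolynomial (Fin 2) R →+* Polynomial R) := by
    apply MvPolynomial.ringHom_ext
    · intro r; simp [Polynomial.algebraMap_eq]
    · intro i
      fin_cases i <;> simp
  exact congrArg (fun f => f p) h2

/-- binary forms of degree `d` with nonzero resultant have no common zero -/
lemma isMorphismTuple_of_resultant_ne_zero [IsAlgClosed k] (hd : 0 < d) {F : Tup 1 k}
    (hF : ∀ i, (F i).IsHomogeneous d)
    (hres : Polynomial.resultant (dehom (F 0)) (dehom (F 1)) d d ≠ 0) : IsMorphismTuple d F := by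
  apply isMorphismTuple_of_isAlgClosed hF
  intro x hx
  by_contra hne
  by_cases h1 : x 1 = 0
  · have h0 : x 0 ≠ 0 := by
      intro h0
      apply hne
      funext i
      fin_cases i
      · exact h0
      · exact h1
    have hx' : x = ![x 0, 0] := by
      funext i
      fin_cases i
      · rfl
      · exact h1
    have hc : ∀ i, (dehom (F i)).coeff d = 0 := by
      intro i
      have := hx i
      rw [hx', eval_one_zero (hF i), ← coeff_dehom (hF i) le_rfl] at this
      exact (mul_eq_zero.1 this).resolve_left (pow_ne_zero _ h0)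
    have hlt : ∀ i, (dehom (F i)).natDegree < d := by
      intro i
      refine lt_of_le_of_ne (natDegree_dehom_le (hF i)) ?_
      intro heq
      have h2 := hc i
      rw [← heq] at h2
      have h3 : dehom (F i) = 0 := Polynomial.leadingCoeff_eq_zero.1 h2
      rw [h3, Polynomial.natDegree_zero] at heq
      omega
    exact hres (Polynomial.resultant_eq_zero_of_lt_lt _ _ _ _ (hlt 0) (hlt 1))
  · have hs : ∀ i, (dehom (F i)).eval (x 0 / x 1) = 0 := by
      intro i
      rw [eval_dehom]
      have h2 : x = fun j => x 1 * (![x 0 / x 1, 1] : Fin 2 → k) j := by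
        funext j
        fin_cases j
        · simp; field_simp
        · simp
      have h3 := hx i
      rw [h2, eval_smul_point (hF i)] at h3
      exact (mul_eq_zero.1 h3).resolve_left (pow_ne_zero _ h1)
    obtain ⟨p, q, _, _, h4⟩ := Polynomial.exists_mul_add_mul_eq_C_resultant
      (dehom (F 0)) (dehom (F 1)) (natDegree_dehom_le (hF 0)) (natDegree_dehom_le (hF 1))
      (Or.inl (by omega))
    have h5 := congrArg (Polynomial.eval (x 0 / x 1)) h4
    rw [Polynomial.eval_add, Polynomial.eval_mul, Polynomial.eval_mul, hs 0, hs 1, zero_mul,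
      zero_mul, add_zero, Polynomial.eval_C] at h5
    exact hres h5.symm

end Pool.Agent.H94.Shaf
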