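import Pool.Agent.H94.ShafOrb

/-!
# Infinitesimal stabilizers are trivial (`N = 1`, `d ≥ 2`)
-/

namespace Pool.Agent.H94.Shaf

open MvPolynomial Topology

section general

variable {N d : ℕ} {k : Type*} [Field k]

lemma IsMorphismTuple.eq_zero {F : Tup N k} (hF : IsMorphismTuple d F) {x : Fin (N + 1) → k}
    (hx : ∀ i, eval x (F i) = 0) : x = 0 := by
  have h1 : (algebraMap k (AlgebraicClosure k)) ∘ x = 0 := by
    apply hF.2
    intro i
    have := aeval_algebraMap_apply (A := k) (AlgebraicClosure k) x (F i)
    rw [this]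
    have h2 : aeval x (F i) = eval x (F i) := by
      rw [← MvPolynomial.aeval_eq_eval]
    rw [h2, hx i, map_zero]
  funext i
  have := congrFun h1 i
  simpa using this

lemma isMorphismTuple_of_isAlgClosed [IsAlgClosed k] {F : Tup N k}
    (hF : ∀ i, (F i).IsHomogeneous d)
    (h : ∀ x : Fin (N + 1) → k, (∀ i, eval x (F i) = 0) → x = 0) : IsMorphismTuple d F := by
  refine ⟨hF, fun x hx => ?_⟩
  have hbij := IsAlgClosed.algebraMap_bijective_of_isIntegral (k := k) (K := AlgebraicClosure k)
  choose y hy using fun i => hbij.2 (x i)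
  have hxy : x = (algebraMap k (AlgebraicClosure k)) ∘ y := by
    funext i; rw [Function.comp_apply, hy]
  have hy0 : y = 0 := by
    apply h
    intro i
    have h1 := hx i
    rw [hxy, aeval_algebraMap_apply] at h1
    have h2 : aeval y (F i) = eval y (F i) := by
      rw [← MvPolynomial.aeval_eq_eval]
    rw [h2] at h1
    exact hbij.1 (by rw [h1, map_zero])
  rw [hxy, hy0]
  funext i
  simp

end general

section binary

variable {d : ℕ} {k : Type*}

/-- the exponent of `x^i y^(d-i)` -/
noncomputable def bm (d i : ℕ) : Fin 2 →₀ ℕ := Finsupp.single 0 i + Finsupp.single 1 (d - i)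

lemma binary_eq [CommRing k] {p : MvPolynomial (Fin 2) k} (hp : p.IsHomogeneous d) :
    p = ∑ i ∈ Finset.range (d + 1), C (coeff (bm d i) p) * X 0 ^ i * X 1 ^ (d - i) := by
  classical
  have hmon : ∀ i, (C (coeff (bm d i) p) * X 0 ^ i * X 1 ^ (d - i) : MvPolynomial (Fin 2) k) =
      monomial (bm d i) (coeff (bm d i) p) := by
    intro i
    rw [bm, monomial_add_single, monomial_eq]
    simp
  simp_rw [hmon]
  ext m
  rw [coeff_sum]
  simp_rw [coeff_monomial]
  by_cases hm : m.degree = d
  · have hm' : m = bm d (m 0) := by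
      rw [Finsupp.degree_eq_sum, Fin.sum_univ_two] at hm
      ext i
      fin_cases i
      · simp [bm]
      · simp [bm]; omega
    have hle : m 0 ≤ d := by
      rw [Finsupp.degree_eq_sum, Fin.sum_univ_two] at hm; omega
    rw [Finset.sum_eq_single (m 0)]
    · rw [if_pos hm'.symm, ← hm']
    · intro b _ hb
      rw [if_neg]
      intro h
      apply hb
      have := congrArg (fun f => f 0) h
      simpa [bm] using this
    · intro h
      exact absurd (Finset.mem_range.2 (by omega)) h
  · rw [hp.coeff_eq_zero hm]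
    symm
    apply Finset.sum_eq_zero
    intro i hi
    rw [if_neg]
    rintro rfl
    apply hm
    rw [Finsupp.degree_eq_sum, Fin.sum_univ_two]
    have := Finset.mem_range.1 hi
    simp [bm]
    omega

/-- dehomogenization `p(X, 1)` -/
noncomputable def dehom [CommRing k] (p : MvPolynomial (Fin 2) k) : Polynomial k :=
  aeval ![Polynomial.X, 1] p

lemma dehom_eq [CommRing k] {p : MvPolynomial (Fin 2) k} (hp : p.IsHomogeneous d) :
    dehom p = ∑ i ∈ Finset.range (d + 1),
      Polynomial.C (coeff (bm d i) p) * Polynomial.X ^ i := by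
  conv_lhs => rw [binary_eq hp]
  simp [dehom, Polynomial.algebraMap_eq]

lemma coeff_dehom [CommRing k] {p : MvPolynomial (Fin 2) k} (hp : p.IsHomogeneous d) {i : ℕ}
    (hi : i ≤ d) : (dehom p).coeff i = coeff (bm d i) p := by
  rw [dehom_eq hp, Polynomial.finsetSum_coeff]
  simp_rw [Polynomial.coeff_C_mul_X_pow]
  rw [Finset.sum_ite_eq]
  rw [if_pos (Finset.mem_range.2 (by omega))]

lemma natDegree_dehom_le [CommRing k] {p : MvPolynomial (Fin 2) k} (hp : p.IsHomogeneous d) :
    (dehom p).natDegree ≤ d := by
  rw [dehom_eq hp]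
  apply Polynomial.natDegree_sum_le_of_forall_le
  intro i hi
  refine (Polynomial.natDegree_C_mul_X_pow_le _ _).trans ?_
  have := Finset.mem_range.1 hi
  omega

lemma eval_one_zero [CommRing k] {p : MvPolynomial (Fin 2) k} (hp : p.IsHomogeneous d) (t : k) :
    eval ![t, 0] p = t ^ d * coeff (bm d d) p := by
  conv_lhs => rw [binary_eq hp]
  rw [map_sum, Finset.sum_eq_single d]
  · simp [mul_comm]
  · intro i hi hid
    have := Finset.mem_range.1 hi
    have h1 : d - i ≠ 0 := by omega
    simp [h1]
  · simp

lemma eval_zero_one [CommRing k] {p : MvPolynomial (Fin 2) k} (hp : p.IsHomogeneous d) (t : k) :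
    eval ![0, t] p = t ^ d * coeff (bm d 0) p := by
  conv_lhs => rw [binary_eq hp]
  rw [map_sum, Finset.sum_eq_single 0]
  · simp [mul_comm]
  · intro i hi hid
    simp [hid]
  · simp

lemma eval_dehom [CommRing k] (p : MvPolynomial (Fin 2) k) (s : k) :
    (dehom p).eval s = eval ![s, 1] p := by
  simp only [dehom]
  have h1 : (Polynomial.evalRingHom s).comp
      ((aeval ![Polynomial.X, 1] : MvPolynomial (Fin 2) k →ₐ[k] Polynomial k) :
        MvPolynomial (Fin 2) k →+* Polynomial k) = eval ![s, 1] := by
    apply MvPolynomial.ringHom_ext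
    · intro r; simp [Polynomial.algebraMap_eq]
    · intro i
      fin_cases i <;> simp
  exact congrArg (fun f => f p) h1

lemma eval_map_dehom {S : Type*} [CommRing k] [CommRing S] (φ : k →+* S)
    (p : MvPolynomial (Fin 2) k) (s : S) :
    eval ![s, 1] (p.map φ) = (dehom p).eval₂ φ s := by
  rw [← eval_dehom]
  have h1 : dehom (p.map φ) = (dehom p).map φ := by
    simp only [dehom]
    have h2 : ((aeval ![Polynomial.X, 1] : MvPolynomial (Fin 2) S →ₐ[S] Polynomial S) :
        MvPolynomial (Fin 2) S →+* Polynomial S).comp (MvPolynomial.map φ) =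
        (Polynomial.mapRingHom φ).comp
        ((aeval ![Polynomial.X, 1] : MvPolynomial (Fin 2) k →ₐ[k] Polynomial k) :
        MvPolynomial (Fin 2) k →+* Polynomial k) := by
      apply MvPolynomial.ringHom_ext
      · intro r; simp [Polynomial.algebraMap_eq]
      · intro i
        fin_cases i <;> simp
    exact congrArg (fun f => f p) h2
  rw [h1, Polynomial.eval_map]

end binary

end Pool.Agent.H94.Shaf
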