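import Pool.Agent.H94.ShafStab

/-!
# Infinitesimal stabilizers are trivial (`N = 1`, `d ≥ 2`), continued
-/

namespace Pool.Agent.H94.Shaf

open MvPolynomial Topology TrivSqZeroExt

/-- the matrix `1 + ε X` -/
def dmat {N : ℕ} {k : Type*} [Field k] (X : Mat N k) : Mat N (DualNumber k) :=
  fun i j => inl ((1 : Mat N k) i j) + inr (X i j)

section stab

variable {N d : ℕ} {k : Type*} [Field k]

/-- base change to the dual numbers -/
noncomputable def toDual (F : Tup N k) : Tup N (DualNumber k) :=
  fun i => (F i).map (algebraMap k (DualNumber k))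

lemma dmat_mul (X P X' : Mat N k) (h : X * P = P * X') :
    dmat X * P.map (algebraMap k (DualNumber k)) =
      P.map (algebraMap k (DualNumber k)) * dmat X' := by
  have h1 : ∀ i j, ∑ l, X i l * P l j = ∑ l, P i l * X' l j := fun i j => by
    have := congrFun (congrFun h i) j
    rwa [Matrix.mul_apply, Matrix.mul_apply] at this
  ext i j
  · simp only [Matrix.mul_apply, dmat, Matrix.map_apply, algebraMap_eq_inl, fst_sum, fst_mul,
      fst_add, fst_inl, fst_inr, add_zero]
    have h2 : ∑ l, (1 : Mat N k) i l * P l j = P i j := by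
      rw [← Matrix.mul_apply, one_mul]
    have h3 : ∑ l, P i l * (1 : Mat N k) l j = P i j := by
      rw [← Matrix.mul_apply, mul_one]
    rw [h2, h3]
  · simp only [Matrix.mul_apply, dmat, Matrix.map_apply, algebraMap_eq_inl, snd_sum, snd_mul,
      fst_add, fst_inl, fst_inr, snd_add, snd_inl, snd_inr, smul_eq_mul, mul_zero, zero_add,
      add_zero, MulOpposite.smul_eq_mul_unop, MulOpposite.unop_op, zero_mul]
    exact h1 i j

lemma act_toDual (P : Mat N k) (F : Tup N k) :
    act (P.map (algebraMap k (DualNumber k))) (toDual F) = toDual (act P F) := by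
  funext i
  exact (map_act _ P F i).symm

/-- infinitesimal stabilizers are conjugated -/
lemma stab_conj {F : Tup N k} {X P X' : Mat N k} (h : X * P = P * X')
    (hX : act (dmat X) (toDual F) = toDual F) :
    act (dmat X') (toDual (act P F)) = toDual (act P F) := by
  rw [← act_toDual, act_act, ← dmat_mul X P X' h, ← act_act, hX]

end stab

section binary

variable {d : ℕ} {k : Type*} [Field k]

lemma eval_toDual_inl (F : Tup 1 k) (x : Fin 2 → k) (j : Fin 2) :
    eval (fun i => algebraMap k (DualNumber k) (x i)) (toDual F j) =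
      algebraMap k (DualNumber k) (eval x (F j)) := by
  rw [toDual, eval_map, ← aeval_def]
  have h1 := aeval_algebraMap_apply (A := k) (DualNumber k) x (F j)
  have h2 : aeval x (F j) = eval x (F j) := by rw [← MvPolynomial.aeval_eq_eval]
  rw [h2] at h1
  exact h1

lemma eval_smul_point {R : Type*} [CommRing R] {p : MvPolynomial (Fin 2) R}
    (hp : p.IsHomogeneous d) (t : R) (x : Fin 2 → R) :
    eval (fun i => t * x i) p = t ^ d * eval x p := by
  conv_lhs => rw [binary_eq hp]
  conv_rhs => rw [binary_eq hp]
  simp only [map_sum, map_mul, eval_C, map_pow, eval_X, Finset.mul_sum]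
  refine Finset.sum_congr rfl fun i hi => ?_
  have := Finset.mem_range.1 hi
  have h1 : t ^ d = t ^ i * t ^ (d - i) := by
    rw [← pow_add]; congr 1; omega
  rw [mul_pow, mul_pow, h1]
  ring

lemma one_add_inr_pow (a : k) (n : ℕ) :
    ((1 : DualNumber k) + inr a) ^ n = 1 + inr (n * a) := by
  induction n with
  | zero => simp
  | succ n ih =>
    rw [pow_succ, ih]
    ext
    · simp
    · simp
      ring

/-- An eigenvalue `l` of an infinitesimal stabilizer satisfies `(d + 1) l ((d - 1) l + tr) = 0`. -/
lemma eigen {F : Tup 1 k} (hF : IsMorphismTuple d F) {X : Mat 1 k}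
    (hX : act (dmat X) (toDual F) = toDual F) {l : k} {v : Fin 2 → k} (hv : v ≠ 0)
    (hXv : X.mulVec v = l • v) :
    ((d : k) + 1) * l * (((d : k) - 1) * l + X.trace) = 0 := by
  classical
  -- evaluate at `v`
  set w : Fin 2 → k := fun j => eval v (F j) with hw
  have hw0 : w ≠ 0 := by
    intro h
    apply hv
    apply hF.eq_zero
    intro i
    exact congrFun h i
  have hAv : (dmat X).mulVec (fun i => algebraMap k (DualNumber k) (v i)) =
      fun i => (1 + inr l) * algebraMap k (DualNumber k) (v i) := by
    funext i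
    have h0 := congrFun hXv i
    simp only [Matrix.mulVec, dotProduct, Pi.smul_apply, smul_eq_mul] at h0
    have h00 : ∑ x, (1 : Mat 1 k) i x * v x = v i := by
      have := congrFun (Matrix.one_mulVec v) i
      simpa only [Matrix.mulVec, dotProduct] using this
    ext
    · simp only [Matrix.mulVec, dotProduct, dmat, algebraMap_eq_inl, fst_sum, fst_mul,
        fst_add, fst_inl, fst_inr, add_zero, fst_one, one_mul]
      exact h00
    · simp only [Matrix.mulVec, dotProduct, dmat, algebraMap_eq_inl, snd_sum, snd_mul,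
        fst_add, fst_inl, fst_inr, snd_add, snd_inl, snd_inr, smul_eq_mul, mul_zero, zero_add,
        add_zero, MulOpposite.smul_eq_mul_unop, MulOpposite.unop_op, fst_one, snd_one]
      exact h0
  have h1 : ∀ i, (dmat X).adjugate.mulVec (fun j => (1 + inr l) ^ d *
      algebraMap k (DualNumber k) (w j)) i = algebraMap k (DualNumber k) (w i) := by
    intro i
    have h2 : eval (fun i => algebraMap k (DualNumber k) (v i)) (act (dmat X) (toDual F) i) =
        eval (fun i => algebraMap k (DualNumber k) (v i)) (toDual F i) := by rw [hX]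
    rw [act, eval_tr, hAv, eval_toDual_inl] at h2
    rw [← h2]
    congr 1
    funext j
    rw [eval_smul_point (d := d), eval_toDual_inl]
    exact (hF.1 j).map _
  have h3 : ((X.adjugate + ((d : k) * l) • (1 : Mat 1 k))).mulVec w = 0 := by
    funext i
    have h4 := congrArg snd (h1 i)
    rw [one_add_inr_pow] at h4
    rw [Matrix.adjugate_fin_two] at h4
    rw [Matrix.adjugate_fin_two]
    fin_cases i
    · simp [Matrix.mulVec, dotProduct, Fin.sum_univ_two, dmat, algebraMap_eq_inl] at h4 ⊢
      rw [← h4]; ring
    · simp [Matrix.mulVec, dotProduct, Fin.sum_univ_two, dmat, algebraMap_eq_inl] at h4 ⊢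
      rw [← h4]; ring
  have h5 : (X.adjugate + ((d : k) * l) • (1 : Mat 1 k)).det = 0 :=
    Matrix.exists_mulVec_eq_zero_iff.1 ⟨w, hw0, h3⟩
  have h6 : (X - l • (1 : Mat 1 k)).det = 0 := by
    apply Matrix.exists_mulVec_eq_zero_iff.1
    refine ⟨v, hv, ?_⟩
    rw [Matrix.sub_mulVec, hXv, Matrix.smul_mulVec, Matrix.one_mulVec, sub_self]
  rw [Matrix.adjugate_fin_two, Matrix.det_fin_two] at h5
  rw [Matrix.det_fin_two] at h6
  rw [Matrix.trace_fin_two]
  simp at h5 h6
  linear_combination h5 - h6

/-- a nilpotent upper triangular infinitesimal stabilizer vanishes -/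
lemma nilp [CharZero k] (hd : 2 ≤ d) {F : Tup 1 k} (hF : IsMorphismTuple d F) {X : Mat 1 k}
    (h00 : X 0 0 = 0) (h10 : X 1 0 = 0) (h11 : X 1 1 = 0)
    (hX : act (dmat X) (toDual F) = toDual F) : X 0 1 = 0 := by
  by_contra hb
  set b := X 0 1 with hbdef
  have hval : ∀ (s : k) (i : Fin 2),
      (dmat X).adjugate.mulVec (fun j => Polynomial.eval₂ (algebraMap k (DualNumber k))
        (inl s + inr b) (dehom (F j))) i =
      Polynomial.eval₂ (algebraMap k (DualNumber k)) (inl s) (dehom (F i)) := by
    intro s i
    have h2 : eval ![inl s, 1] (act (dmat X) (toDual F) i) =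
        eval ![inl s, 1] (toDual F i) := by rw [hX]
    rw [act, eval_tr] at h2
    have h3 : (dmat X).mulVec ![(inl s : DualNumber k), 1] = ![inl s + inr b, 1] := by
      have e00 : dmat X 0 0 = 1 := by simp [dmat, h00]
      have e01 : dmat X 0 1 = inr b := by simp [dmat, ← hbdef]
      have e10 : dmat X 1 0 = 0 := by simp [dmat, h10]
      have e11 : dmat X 1 1 = 1 := by simp [dmat, h11]
      funext j
      rw [Matrix.mulVec, dotProduct, Fin.sum_univ_two]
      fin_cases j
      · change dmat X 0 0 * _ + dmat X 0 1 * _ = _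
        rw [e00, e01]; simp
      · change dmat X 1 0 * _ + dmat X 1 1 * _ = _
        rw [e10, e11]; simp
    rw [h3] at h2
    simp only [toDual] at h2
    rw [eval_map_dehom] at h2
    rw [← h2]
    congr 1
    funext j
    rw [eval_map_dehom]
  have htaylor : ∀ (s : k) (f : Polynomial k),
      Polynomial.eval₂ (algebraMap k (DualNumber k)) (inl s + inr b) f =
        inl (f.eval s) + inr (b * f.derivative.eval s) := by
    intro s f
    rw [← Polynomial.aeval_def, Polynomial.aeval_add_of_sq_eq_zero _ _ _ (by
      rw [pow_two, inr_mul_inr])]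
    have h4 : ∀ g : Polynomial k, Polynomial.aeval (inl s : DualNumber k) g = inl (g.eval s) := by
      intro g
      have := Polynomial.aeval_algebraMap_apply (DualNumber k) s g
      rw [algebraMap_eq_inl] at this
      rw [this, Polynomial.coe_aeval_eq_eval]
    rw [h4, h4]
    ext
    · simp
    · simp [mul_comm]
  have hinl : ∀ (s : k) (f : Polynomial k),
      Polynomial.eval₂ (algebraMap k (DualNumber k)) (inl s) f = inl (f.eval s) := by
    intro s g
    have := Polynomial.aeval_algebraMap_apply (DualNumber k) s g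
    rw [algebraMap_eq_inl] at this
    rw [← Polynomial.aeval_def, this, Polynomial.coe_aeval_eq_eval]
  have hinf : Infinite k := inferInstance
  -- second component: the derivative of `f_1` vanishes
  have hd1 : (dehom (F 1)).derivative = 0 := by
    apply Polynomial.funext
    intro s
    have h4 := congrArg snd (hval s 1)
    rw [Matrix.adjugate_fin_two] at h4
    simp only [htaylor, hinl] at h4
    simp [Matrix.mulVec, dotProduct, Fin.sum_univ_two, dmat, h00, h10] at h4
    rw [Polynomial.eval_zero]
    exact h4.resolve_left hb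
  have hd0 : (dehom (F 0)).derivative = dehom (F 1) := by
    apply Polynomial.funext
    intro s
    have h4 := congrArg snd (hval s 0)
    rw [Matrix.adjugate_fin_two] at h4
    simp only [htaylor, hinl] at h4
    simp [Matrix.mulVec, dotProduct, Fin.sum_univ_two, dmat, h11, ← hbdef] at h4
    have h5 : b * (Polynomial.eval s (dehom (F 0)).derivative - Polynomial.eval s (dehom (F 1)))
        = 0 := by linear_combination h4
    exact sub_eq_zero.1 ((mul_eq_zero.1 h5).resolve_left hb)
  -- top coefficients vanish
  obtain ⟨e, rfl⟩ : ∃ e, d = e + 2 := ⟨d - 2, by omega⟩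
  have hc1 : ∀ i, (dehom (F 1)).coeff (i + 1) = 0 := by
    intro i
    have := congrArg (fun f => Polynomial.coeff f i) hd1
    simp only [Polynomial.coeff_derivative, Polynomial.coeff_zero] at this
    rcases mul_eq_zero.1 this with h | h
    · exact h
    · exfalso
      exact (Nat.cast_add_one_ne_zero i) h
  have hc0 : (dehom (F 0)).coeff (e + 2) = 0 := by
    have := congrArg (fun f => Polynomial.coeff f (e + 1)) hd0
    simp only [Polynomial.coeff_derivative] at this
    rw [hc1 e] at this
    rcases mul_eq_zero.1 this with h | h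
    · exact h
    · exfalso
      exact (Nat.cast_add_one_ne_zero (e + 1)) h
  have h6 : ![(1 : k), 0] = 0 := by
    apply hF.eq_zero
    intro i
    rw [eval_one_zero (hF.1 i), ← coeff_dehom (hF.1 i) le_rfl]
    fin_cases i
    · simp [hc0]
    · simp [hc1 (e + 1)]
  have := congrFun h6 0
  simp at this

/-- Infinitesimal stabilizers of endomorphisms of `P^1` of degree at least `2` are trivial. -/
theorem stab_trivial [IsAlgClosed k] [CharZero k] (hd : 2 ≤ d) {F : Tup 1 k}
    (hF : IsMorphismTuple d F) {X : Mat 1 k}
    (hX : act (dmat X) (toDual F) = toDual F) : X = 0 := by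
  classical
  have hd0 : (d : k) ≠ 0 := by
    have : d ≠ 0 := by omega
    exact_mod_cast this
  have hd1 : (d : k) + 1 ≠ 0 := Nat.cast_add_one_ne_zero d
  have hd2 : (d : k) - 1 ≠ 0 := by
    intro h
    have h2 : (d : k) = 1 := by linear_combination h
    have : d = 1 := by exact_mod_cast h2
    omega
  obtain ⟨z, hz⟩ := IsAlgClosed.exists_pow_nat_eq (X.trace ^ 2 - 4 * X.det) (n := 2) (by omega)
  have h2ne : (2 : k) ≠ 0 := two_ne_zero
  have hroot : ∀ l : k, l ^ 2 - X.trace * l + X.det = 0 →
      ((d : k) + 1) * l * (((d : k) - 1) * l + X.trace) = 0 := by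
    intro l hl
    have h6 : (X - l • (1 : Mat 1 k)).det = 0 := by
      rw [Matrix.trace_fin_two, Matrix.det_fin_two] at hl
      rw [Matrix.det_fin_two]
      simp
      linear_combination hl
    obtain ⟨v, hv, hv0⟩ := Matrix.exists_mulVec_eq_zero_iff.2 h6
    refine eigen hF hX hv ?_
    rw [Matrix.sub_mulVec, Matrix.smul_mulVec, Matrix.one_mulVec, sub_eq_zero] at hv0
    exact hv0
  set a := (X.trace + z) / 2 with ha
  set b := (X.trace - z) / 2 with hb
  have hab : a + b = X.trace := by rw [ha, hb]; field_simp; ring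
  have hab' : a * b = X.det := by
    rw [ha, hb]; field_simp; linear_combination - hz
  have e1 := hroot a (by rw [← hab, ← hab']; ring)
  have e2 := hroot b (by rw [← hab, ← hab']; ring)
  rw [← hab] at e1 e2
  have hzero : a = 0 ∧ b = 0 := by
    rcases mul_eq_zero.1 e1 with h | h
    · have ha0 : a = 0 := (mul_eq_zero.1 h).resolve_left hd1
      refine ⟨ha0, ?_⟩
      rw [ha0] at e2
      have : ((d : k) + 1) * (d : k) * b ^ 2 = 0 := by linear_combination e2
      have := (mul_eq_zero.1 this).resolve_left (mul_ne_zero hd1 hd0)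
      exact pow_eq_zero_iff (two_ne_zero) |>.1 this
    · have hb' : b = -(d : k) * a := by linear_combination h
      have h3 : ((d : k) + 1) * ((d : k) - 1) * ((d : k) + 1) * (d : k) * a ^ 2 = 0 := by
        rw [hb'] at e2
        linear_combination e2
      have h4 := (mul_eq_zero.1 h3).resolve_left
        (mul_ne_zero (mul_ne_zero (mul_ne_zero hd1 hd2) hd1) hd0)
      have ha0 : a = 0 := pow_eq_zero_iff (two_ne_zero) |>.1 h4
      exact ⟨ha0, by rw [hb', ha0, mul_zero]⟩
  have htr : X.trace = 0 := by rw [← hab, hzero.1, hzero.2, add_zero]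
  have hdet : X.det = 0 := by rw [← hab', hzero.1, zero_mul]
  obtain ⟨v, hv, hv0⟩ := Matrix.exists_mulVec_eq_zero_iff.2 hdet
  -- a basis whose first vector is `v`
  obtain ⟨P, hP0, hPdet⟩ : ∃ P : Mat 1 k, (∀ i, P i 0 = v i) ∧ P.det ≠ 0 := by
    by_cases h0 : v 0 = 0
    · refine ⟨!![v 0, 1; v 1, 0], fun i => by fin_cases i <;> rfl, ?_⟩
      have h1 : v 1 ≠ 0 := by
        intro h1
        apply hv
        funext i
        fin_cases i
        · exact h0
        · exact h1
      rw [Matrix.det_fin_two]
      simpa [h0] using h1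
    · refine ⟨!![v 0, 0; v 1, 1], fun i => by fin_cases i <;> rfl, ?_⟩
      rw [Matrix.det_fin_two]
      simpa using h0
  have hPu : IsUnit P.det := hPdet.isUnit
  have hPP : P * P⁻¹ = 1 := Matrix.mul_nonsing_inv _ hPu
  have hPP' : P⁻¹ * P = 1 := Matrix.nonsing_inv_mul _ hPu
  set X' : Mat 1 k := P⁻¹ * X * P with hX'
  have hXP : X * P = P * X' := by
    rw [hX', ← Matrix.mul_assoc, ← Matrix.mul_assoc, hPP, Matrix.one_mul]
  have hst := stab_conj hXP hX
  have hF' : IsMorphismTuple d (act P F) := by
    have := isMorphismTuple_conj hF (Matrix.GeneralLinearGroup.det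
      (Matrix.GeneralLinearGroup.mk'' P hPu)) (Matrix.GeneralLinearGroup.mk'' P hPu)
    rw [← act_eq_conj] at this
    exact this
  have hcol : ∀ i, X' i 0 = 0 := by
    intro i
    have h1 : ∀ j, (X * P) j 0 = 0 := by
      intro j
      rw [Matrix.mul_apply]
      have := congrFun hv0 j
      simp only [Matrix.mulVec, dotProduct, Pi.zero_apply] at this
      rw [← this]
      exact Finset.sum_congr rfl fun l _ => by rw [hP0]
    rw [hX', Matrix.mul_assoc, Matrix.mul_apply]
    exact Finset.sum_eq_zero fun j _ => by rw [h1, mul_zero]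
  have htr' : X'.trace = 0 := by
    rw [hX', Matrix.mul_assoc, Matrix.trace_mul_comm, Matrix.mul_assoc, hPP, Matrix.mul_one, htr]
  have h11 : X' 1 1 = 0 := by
    rw [Matrix.trace_fin_two, hcol 0, zero_add] at htr'
    exact htr'
  have h01 := nilp hd hF' (hcol 0) (hcol 1) h11 hst
  have hX'0 : X' = 0 := by
    ext i j
    fin_cases i <;> fin_cases j
    · exact hcol 0
    · exact h01
    · exact hcol 1
    · exact h11
  have : X = P * X' * P⁻¹ := by
    rw [← hXP, Matrix.mul_assoc, hPP, Matrix.mul_one]
  rw [this, hX'0, Matrix.mul_zero, Matrix.zero_mul]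

end binary

end Pool.Agent.H94.Shaf
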