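import Pool.Agent.H94.ShafStab2

/-!
# The dimension of `M_d^1` is at most `2d - 2`
-/

namespace Pool.Agent.H94.Shaf

open MvPolynomial Topology TrivSqZeroExt TopologicalSpace

variable {d : ℕ} {k : Type*} [Field k]

lemma IndepOn.reindex {N : ℕ} {ι ι' : Type*} {Z : Set (EndCone N d k)}
    {p : ι → MvPolynomial (Jx N) k} (h : IndepOn Z p) (e : ι' ≃ ι) :
    IndepOn Z (p ∘ e) := by
  intro P hP
  have h1 : rename e P = 0 := by
    apply h
    intro z hz
    have := hP z hz
    rw [eval_rename]
    exact this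
  exact (rename_injective e e.injective) (by rw [h1, map_zero])

lemma exists_indepOn_orbit [IsAlgClosed k] [CharZero k] (hd : 2 ≤ d) (F : EndCone 1 d k) :
    ∃ p : Fin 4 → MvPolynomial (Jx 1) k, IndepOn (Moduli.mk ⁻¹' {Moduli.mk F}) p := by
  classical
  have hinf : Infinite k := IsAlgClosed.instInfinite
  set Φ : Tup 1 (MvPolynomial (Fin (1 + 1) × Fin (1 + 1)) k) :=
    act (genMat 1 k) (fun i => (F.1 i).map C) with hΦ
  set a : Fin (1 + 1) × Fin (1 + 1) → k := fun p => (1 : Mat 1 k) p.1 p.2 with ha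
  have hspec : spec Φ a = F.1 := by
    rw [hΦ, spec_act_genMat]
    have : (fun i j => a (i, j)) = (1 : Mat 1 k) := by
      funext i j; rfl
    rw [this, act_one]
  have hinj : ∀ v : Fin (1 + 1) × Fin (1 + 1) → k,
      (∀ j, ∑ s, v s * eval a (pderiv s (coeffs Φ j)) = 0) → v = 0 := by
    intro v hv
    set X : Mat 1 k := fun i j => v (i, j) with hX
    set ψ : MvPolynomial (Fin (1 + 1) × Fin (1 + 1)) k →ₐ[k] DualNumber k :=
      aeval (fun s => inl (a s) + inr (v s)) with hψ
    have h1 : act (dmat X) (toDual F.1) = toDual F.1 := by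
      funext i
      have e1 : (Φ i).map (ψ : _ →+* DualNumber k) = act (dmat X) (toDual F.1) i := by
        rw [hΦ, map_act]
        congr 1
        · ext i j <;> simp [genMat, dmat, hψ, ha, hX]
        · funext j
          rw [map_map]
          congr 1
          ext r <;> simp [hψ]
      rw [← e1]
      ext1 m
      rw [coeff_map]
      have e2 := aeval_dual a v (coeffs Φ (i, m))
      rw [hv (i, m)] at e2
      have e3 : eval a (coeffs Φ (i, m)) = coeff m (F.1 i) := by
        rw [← hspec]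
        simp only [coeffs, spec, coeff_map]
      rw [e3] at e2
      simp only [toDual, coeff_map]
      rw [algebraMap_eq_inl]
      rw [inr_zero, add_zero] at e2
      exact e2
    have h2 := stab_trivial hd F.2 h1
    funext s
    exact congrFun (congrFun h2 s.1) s.2
  obtain ⟨p, hp⟩ := exists_algebraicIndependent_of_injective (coeffs Φ) a hinj
  have hind : IndepOn (Moduli.mk ⁻¹' {Moduli.mk F}) p := by
    refine IndepOn.of_family Φ (genMat 1 k).det det_genMat_ne_zero _ ?_ p hp
    intro s hs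
    rw [eval_det_genMat] at hs
    refine ⟨F.act (Matrix.GeneralLinearGroup.mk'' (Matrix.of fun i j => s (i, j)) hs.isUnit),
      mk_act _ _, ?_⟩
    rw [EndCone.act_val, spec_act_genMat]
    rfl
  have e : Fin 4 ≃ Fin (1 + 1) × Fin (1 + 1) := Fintype.equivOfCardEq (by simp)
  exact ⟨p ∘ e, hind.reindex e⟩

/-- the generic binary forms -/
noncomputable def genForm (d : ℕ) (k : Type*) [Field k] :
    Tup 1 (MvPolynomial (Fin (1 + 1) × Fin (d + 1)) k) :=
  fun i => ∑ j : Fin (d + 1), C (X (i, j)) * X 0 ^ (j : ℕ) * X 1 ^ (d - j)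

lemma exists_spec_genForm (F : Tup 1 k) (hF : ∀ i, (F i).IsHomogeneous d) :
    ∃ s, F = spec (genForm d k) s := by
  refine ⟨fun p => coeff (bm d p.2) (F p.1), ?_⟩
  funext i
  conv_lhs => rw [binary_eq (hF i)]
  simp only [spec, genForm, map_sum, map_mul, map_C, map_pow, map_X, eval_X]
  rw [Finset.sum_range]

lemma IndepOn.card_le_of_binary {m : ℕ} (Z : Set (EndCone 1 d k))
    (p : Fin m → MvPolynomial (Jx 1) k) (hp : IndepOn Z p) : m ≤ 2 * (d + 1) := by
  have := hp.card_le (genForm d k) Z (fun z _ => exists_spec_genForm z.1 z.2.1)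
  simpa using this

/-- preimages of irreducible closed subsets of the moduli space -/
lemma isIrreducible_preimage {N : ℕ} [IsAlgClosed k] (hd : 0 < d) {V : Set (Moduli N d k)}
    (hV : IsIrreducible V) : IsIrreducible (Moduli.mk ⁻¹' V : Set (EndCone N d k)) := by
  refine hV.preimage_of_isPreirreducible_fiber _ isOpenMap_mk
    (fun m => isPreirreducible_fiber hd m) ?_
  rw [Moduli.mk_surjective.range_eq, Set.inter_univ]
  exact hV.nonempty

theorem topologicalKrullDim_moduli_le [IsAlgClosed k] [CharZero k] (hd : 2 ≤ d) :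
    topologicalKrullDim (Moduli 1 d k) ≤ ((2 * d - 2 : ℕ) : WithBot ℕ∞) := by
  unfold topologicalKrullDim Order.krullDim
  refine iSup_le fun s => ?_
  have key : ∀ i : ℕ, (hi : i < s.length + 1) → ∃ p : Fin (4 + i) → MvPolynomial (Jx 1) k,
      IndepOn (Moduli.mk ⁻¹' (s ⟨i, hi⟩ : Set (Moduli 1 d k))) p := by
    intro i
    induction i with
    | zero =>
      intro hi
      obtain ⟨m, hm⟩ := (s ⟨0, hi⟩).isIrreducible.nonempty
      obtain ⟨F, rfl⟩ := Moduli.mk_surjective m
      obtain ⟨p, hp⟩ := exists_indepOn_orbit hd F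
      refine ⟨p, hp.mono ?_⟩
      intro G hG
      have hG' : Moduli.mk G = Moduli.mk F := hG
      simp only [Set.mem_preimage]
      rw [hG']
      exact hm
    | succ i ih =>
      intro hi
      obtain ⟨p, hp⟩ := ih (by omega)
      have hlt : s ⟨i, by omega⟩ < s ⟨i + 1, hi⟩ := s.strictMono (by
        rw [Fin.lt_def]; exact Nat.lt_succ_self i)
      have hlt' : (s ⟨i, by omega⟩ : Set (Moduli 1 d k)) ⊂ s ⟨i + 1, hi⟩ := hlt
      obtain ⟨hsub, m, hm, hm'⟩ := Set.ssubset_iff_exists.1 hlt'
      obtain ⟨F, rfl⟩ := Moduli.mk_surjective m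
      have hcl : IsClosed (Moduli.mk ⁻¹' (s ⟨i, by omega⟩ : Set (Moduli 1 d k)) :
          Set (EndCone 1 d k)) :=
        (s ⟨i, by omega⟩).isClosed.preimage Moduli.isQuotientMap_mk.continuous
      obtain ⟨p₀, h0, h1⟩ := exists_poly_of_notMem hcl (z := F) hm'
      refine ⟨(Fin.cons p₀ p : Fin (4 + i + 1) → MvPolynomial (Jx 1) k), ?_⟩
      exact hp.extend (Set.preimage_mono hsub)
        (isIrreducible_preimage (by omega) (s ⟨i + 1, hi⟩).isIrreducible).isPreirreducible
        h0 ⟨F, hm, h1⟩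
  obtain ⟨p, hp⟩ := key s.length (Nat.lt_succ_self _)
  have := hp.card_le_of_binary
  have h2 : s.length ≤ 2 * d - 2 := by omega
  exact_mod_cast h2

end Pool.Agent.H94.Shaf
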